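import Pool.Agent.Lib.Cx.Classes

/-!
Constrained synchronization as a decision problem on bit strings.
-/

namespace Pool.Agent.Work.MP_dbfdd9_lc

/-- The bit string of a complete semi-automaton with state set `Fin n` over the alphabet `Fin k`:
`n` in unary, then the bits `[δ q a = r]` for all `q`, `a`, `r` in lexicographic order. -/
def encode {k n : ℕ} (δ : Fin n → Fin k → Fin n) : List Bool :=
  List.replicate n true ++ false ::
    (List.finRange n).flatMap fun q => (List.finRange k).flatMap fun a =>
      (List.finRange n).map fun r => decide (δ q a = r)

/-- The word `w` synchronizes the semi-automaton: the set `{δ(q, w) : q}` has one element. -/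
def Synchronizes {k n : ℕ} (δ : Fin n → Fin k → Fin n) (w : List (Fin k)) : Prop :=
  (Finset.univ.image fun q => w.foldl δ q).card = 1

open Classical in
/-- `L`-CONSTR-SYNC: the input encodes a semi-automaton synchronized by some word of `L`. -/
noncomputable def ConstrSync {k : ℕ} (L : Language (Fin k)) : N68a2faeb.DecisionProblem :=
  fun x => decide (∃ (n : ℕ) (δ : Fin n → Fin k → Fin n),
    x = encode δ ∧ ∃ w ∈ L, Synchronizes δ w)

end Pool.Agent.Work.MP_dbfdd9_lc
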