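import Pool.Agent.Work.MP_dbfdd9_lc.Defs
import Pool.Agent.Lib.Cx.Savitch
import Pool.Agent.Lib.Cx.LogTM

-- merged part: Pool.Agent.Work.MP_dbfdd9_lc.Enc
section
/-!
Encoding and decoding of semi-automata.
-/

namespace Pool.Agent.Work.MP_dbfdd9_lc

open Pool.Agent.Lib.Cx

variable {k : ℕ}

/-- The encoding of an automaton given by a function on numbers. -/
def encN (k n : ℕ) (f : ℕ → ℕ → ℕ) : List Bool :=
  List.replicate n true ++ false ::
    (List.range n).flatMap fun q => (List.range k).flatMap fun a =>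
      (List.range n).map fun r => decide (f q a = r)

/-- The number of states. -/
def nOf (s : List Bool) : ℕ := findLt s.length fun i => !s.getD i false

/-- The transition function. -/
def dec (k : ℕ) (s : List Bool) (q a : ℕ) : ℕ :=
  findLt (nOf s) fun r => s.getD (nOf s + 1 + (q * (k * nOf s) + (a * nOf s + r))) false

/-- The transitions stay in range. -/
def Ok (k n : ℕ) (f : ℕ → ℕ → ℕ) : Prop := ∀ q < n, ∀ a < k, f q a < n

/-- Well-formed inputs. -/
def Valid (k : ℕ) (s : List Bool) : Prop :=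
  s = encN k (nOf s) (dec k s) ∧ Ok k (nOf s) (dec k s)

/-- Runs. -/
def runN (f : ℕ → ℕ → ℕ) (q : ℕ) (w : List (Fin k)) : ℕ := w.foldl (fun q a => f q a.val) q

/-- Synchronization. -/
def SyncN (n : ℕ) (f : ℕ → ℕ → ℕ) (w : List (Fin k)) : Prop :=
  0 < n ∧ ∀ q < n, ∀ q' < n, runN f q w = runN f q' w

@[simp] theorem runN_nil (f : ℕ → ℕ → ℕ) (q : ℕ) : runN f q ([] : List (Fin k)) = q := rfl

@[simp] theorem runN_cons (f : ℕ → ℕ → ℕ) (q : ℕ) (a : Fin k) (w : List (Fin k)) :
    runN f q (a :: w) = runN f (f q a) w := rfl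

theorem runN_append (f : ℕ → ℕ → ℕ) (q : ℕ) (u w : List (Fin k)) :
    runN f q (u ++ w) = runN f (runN f q u) w := List.foldl_append

theorem Ok.run_lt {n : ℕ} {f : ℕ → ℕ → ℕ} (h : Ok k n f) (w : List (Fin k)) :
    ∀ {q : ℕ}, q < n → runN f q w < n := by
  induction w with
  | nil => exact id
  | cons a w ih => exact fun hq => ih (h _ hq _ a.2)

theorem Ok.run_congr {n : ℕ} {f g : ℕ → ℕ → ℕ} (h : Ok k n f)
    (e : ∀ q < n, ∀ a < k, g q a = f q a) (w : List (Fin k)) :
    ∀ {q : ℕ}, q < n → runN g q w = runN f q w := by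
  induction w with
  | nil => exact fun _ => rfl
  | cons a w ih =>
    intro q hq
    rw [runN_cons, runN_cons, e _ hq _ a.2, ih (h _ hq _ a.2)]

theorem Ok.sync_congr {n : ℕ} {f g : ℕ → ℕ → ℕ} (h : Ok k n f)
    (e : ∀ q < n, ∀ a < k, g q a = f q a) (w : List (Fin k)) : SyncN n g w ↔ SyncN n f w := by
  refine and_congr_right fun _ => forall₂_congr fun q hq => forall₂_congr fun q' hq' => ?_
  rw [h.run_congr e w hq, h.run_congr e w hq']

theorem SyncN.of_inf {n : ℕ} {f : ℕ → ℕ → ℕ} (h : Ok k n f) {w w' : List (Fin k)}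
    (hw : SyncN n f w) (e : w <:+: w') : SyncN n f w' := by
  obtain ⟨u, v, rfl⟩ := e
  refine ⟨hw.1, fun q hq q' hq' => ?_⟩
  simp only [runN_append]
  rw [hw.2 _ (h.run_lt u hq) _ (h.run_lt u hq')]

theorem nOf_encN (n : ℕ) (f : ℕ → ℕ → ℕ) : nOf (encN k n f) = n := by
  refine findLt_eq (by simp [encN]) (fun _ => ?_) fun i hi => ?_
  · simp [encN]
  · rw [encN, getD_append', if_pos (by simpa using hi)]
    simp [hi]

theorem getD_encN (n : ℕ) (f : ℕ → ℕ → ℕ) {q a r : ℕ} (hq : q < n) (ha : a < k) (hr : r < n) :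
    (encN k n f).getD (n + 1 + (q * (k * n) + (a * n + r))) false = decide (f q a = r) := by
  have e : ∀ q, ((List.range k).flatMap fun a => (List.range n).map fun r => decide (f q a = r)) =
      (List.range (k * n)).map fun j => ((List.range k).flatMap fun a =>
        (List.range n).map fun r => decide (f q a = r)).getD j false := fun q => by
    conv_lhs => rw [eq_map_range_getD (List.flatMap _ _) false, length_matrix]
  rw [encN, getD_append', if_neg (by simp; omega), List.length_replicate,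
    show n + 1 + (q * (k * n) + (a * n + r)) - n = q * (k * n) + (a * n + r) + 1 by omega,
    List.getD_cons_succ, List.flatMap_congr fun q _ => e q,
    getD_matrix _ _ _ _ hq (pr_lt ha hr), getD_matrix _ _ _ _ ha hr]

theorem dec_encN {n : ℕ} {f : ℕ → ℕ → ℕ} (h : Ok k n f) :
    ∀ q < n, ∀ a < k, dec k (encN k n f) q a = f q a := fun q hq a ha => by
  unfold dec
  rw [nOf_encN]
  have := h q hq a ha
  refine findLt_eq this.le (fun _ => ?_) fun i hi => ?_
  · rw [getD_encN _ _ hq ha this]; simp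
  · rw [getD_encN _ _ hq ha (hi.trans this)]; simp; omega

theorem encN_congr {n : ℕ} {f g : ℕ → ℕ → ℕ} (e : ∀ q < n, ∀ a < k, g q a = f q a) :
    encN k n g = encN k n f := by
  unfold encN
  congr 2
  exact List.flatMap_congr fun q hq => List.flatMap_congr fun a ha => by
    rw [e q (List.mem_range.1 hq) a (List.mem_range.1 ha)]

theorem encode_eq {n : ℕ} (δ : Fin n → Fin k → Fin n) (f : ℕ → ℕ → ℕ)
    (e : ∀ q a, f q.val a.val = (δ q a).val) : encode δ = encN k n f := by
  unfold encode encN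
  rw [← finRange_flatMap]
  congr 2
  refine List.flatMap_congr fun q _ => ?_
  rw [← finRange_flatMap]
  refine List.flatMap_congr fun a _ => ?_
  rw [← finRange_map]
  exact List.map_congr_left fun r _ => by simp [e, Fin.ext_iff]

theorem sync_iff {n : ℕ} (δ : Fin n → Fin k → Fin n) (f : ℕ → ℕ → ℕ)
    (e : ∀ q a, f q.val a.val = (δ q a).val) (w : List (Fin k)) :
    Synchronizes δ w ↔ SyncN n f w := by
  have key : ∀ q : Fin n, runN f q w = (w.foldl δ q).val := by
    induction w with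
    | nil => exact fun _ => rfl
    | cons a w ih => intro q; rw [runN_cons, e, ih, List.foldl_cons]
  unfold Synchronizes
  rw [Finset.card_eq_one]
  constructor
  · rintro ⟨r, hr⟩
    have : ∀ q : Fin n, w.foldl δ q = r := fun q =>
      Finset.mem_singleton.1 (hr ▸ Finset.mem_image_of_mem _ (Finset.mem_univ q))
    exact ⟨r.pos, fun q hq q' hq' => by rw [key ⟨q, hq⟩, key ⟨q', hq'⟩, this, this]⟩
  · rintro ⟨h0, h⟩
    refine ⟨w.foldl δ ⟨0, h0⟩, Finset.eq_singleton_iff_unique_mem.2
      ⟨Finset.mem_image_of_mem _ (Finset.mem_univ _), fun r hr => ?_⟩⟩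
    obtain ⟨q, -, rfl⟩ := Finset.mem_image.1 hr
    apply Fin.ext
    rw [← key, ← key]
    exact h _ q.2 _ h0

theorem cs_iff (L : Language (Fin k)) (s : List Bool) :
    ConstrSync L s = true ↔ Valid k s ∧ ∃ w ∈ L, SyncN (nOf s) (dec k s) w := by
  simp only [ConstrSync, decide_eq_true_eq]
  constructor
  · rintro ⟨n, δ, rfl, w, hw, h⟩
    let f : ℕ → ℕ → ℕ := fun q a => if h : q < n ∧ a < k then (δ ⟨q, h.1⟩ ⟨a, h.2⟩).val else 0
    have e : ∀ (q : Fin n) (a : Fin k), f q.val a.val = (δ q a).val := fun q a => by simp [f]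
    have ok : Ok k n f := fun q hq a ha => by rw [e ⟨q, hq⟩ ⟨a, ha⟩]; exact Fin.is_lt _
    rw [encode_eq δ f e]
    unfold Valid
    rw [nOf_encN]
    exact ⟨⟨(encN_congr (dec_encN ok)).symm, fun q hq a ha => by
      rw [dec_encN ok q hq a ha]; exact ok q hq a ha⟩, w, hw,
      (ok.sync_congr (dec_encN ok) w).2 ((sync_iff δ f e w).1 h)⟩
  · rintro ⟨⟨h1, h2⟩, w, hw, h⟩
    exact ⟨nOf s, fun q a => ⟨dec k s q a, h2 _ q.2 _ a.2⟩,
      h1.trans (encode_eq _ _ fun _ _ => rfl).symm, w, hw, (sync_iff _ _ (fun _ _ => rfl) w).2 h⟩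

theorem cs_encN (L : Language (Fin k)) {n : ℕ} {f : ℕ → ℕ → ℕ} (h : Ok k n f) :
    ConstrSync L (encN k n f) = true ↔ ∃ w ∈ L, SyncN n f w := by
  rw [cs_iff, Valid, nOf_encN]
  simp only [h.sync_congr (dec_encN h)]
  refine and_iff_right ⟨(encN_congr (dec_encN h)).symm, fun q hq a ha => ?_⟩
  rw [dec_encN h q hq a ha]; exact h q hq a ha

section ls

variable {α : Type} [Obj α]

@[fun_prop] theorem ls_nOf {s : α → List Bool} (hs : LS s) : LS fun x => nOf (s x) := by
  unfold nOf; fun_prop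

@[fun_prop] theorem ls_dec {s : α → List Bool} {q a : α → ℕ} (hs : LS s) (hq : LS q) (ha : LS a) :
    LS fun x => dec k (s x) (q x) (a x) := by
  unfold dec; fun_prop

theorem ls_encN {n : α → ℕ} {f : α → ℕ → ℕ → ℕ} (hn : LS n)
    (hf : LS fun p : α × ℕ × ℕ => f p.1 p.2.1 p.2.2) : LS fun x => encN k (n x) (f x) := by
  have hf' : ∀ {β : Type} [Obj β] {x : β → α} {q a : β → ℕ}, LS x → LS q → LS a →
      LS fun b => f (x b) (q b) (a b) := fun h1 h2 h3 => LS.comp _ _ hf (h1.pair (h2.pair h3))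
  unfold encN
  refine LS.append (by fun_prop) (LS.cons (by fun_prop) (LS.flatMap (by fun_prop)
    (LS.flatMap (by fun_prop) (LS.map (by fun_prop) (LS.decide_eq ?_ (by fun_prop))))))
  exact hf' (by fun_prop) (by fun_prop) (by fun_prop)

@[fun_prop] theorem lsp_valid {s : α → List Bool} (hs : LS s) : LSP fun x => Valid k (s x) := by
  have h1 : LS fun x => encN k (nOf (s x)) (dec k (s x)) := ls_encN (by fun_prop) (by fun_prop)
  refine LSP.of_decide (inst := fun x => by unfold Valid Ok; infer_instance) ?_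
  unfold Valid Ok
  fun_prop

theorem dec_le (s : List Bool) (q a : ℕ) : dec k s q a ≤ nOf s := findLt_le _ _

@[fun_prop] theorem ls_run {s : α → List Bool} {q : α → ℕ} {w : α → List (Fin k)} (hs : LS s)
    (hq : LS q) (hw : LS w) : LS fun x => runN (dec k (s x)) (q x) (w x) := by
  have hw' : LS fun x => (w x).map Fin.val := by fun_prop
  have := LS.natRec (n := fun x => (w x).length) (s := q)
    (t := fun p => dec k (s p.2.2) p.1 (((w p.2.2).map Fin.val).getD p.2.1 0))
    (by fun_prop) hq (by fun_prop) (fun x => q x + nOf (s x)) (by fun_prop) (fun x i _ => by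
      rcases i with _ | i
      · exact Nat.le_add_right _ _
      · exact (dec_le _ _ _).trans (Nat.le_add_left _ _))
  refine this.congr fun x => ?_
  have key : ∀ i ≤ (w x).length, (Nat.rec (q x) (fun i acc => dec k (s x) acc
      (((w x).map Fin.val).getD i 0)) i : ℕ) = runN (dec k (s x)) (q x) ((w x).take i) := by
    intro i hi
    induction i with
    | zero => rfl
    | succ i ih =>
      rw [List.take_succ_eq_append_getElem hi, runN_append, ← ih (by omega),
        runN_cons, runN_nil]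
      simp [List.getD_eq_getElem?_getD, List.getElem?_eq_getElem (show i < (w x).length from hi)]
  rw [key _ le_rfl, List.take_length]

@[fun_prop] theorem lsp_sync {s : α → List Bool} {w : α → List (Fin k)} (hs : LS s) (hw : LS w) :
    LSP fun x => SyncN (nOf (s x)) (dec k (s x)) (w x) := by
  refine LSP.of_decide (inst := fun x => by unfold SyncN; infer_instance) ?_
  unfold SyncN
  fun_prop

end ls

end Pool.Agent.Work.MP_dbfdd9_lc
end

-- merged part: Pool.Agent.Work.MP_dbfdd9_lc.Reduce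
section
/-!
The generic reduction from intersection of automata to constrained synchronization.
-/

namespace Pool.Agent.Work.MP_dbfdd9_lc

open Pool.Agent.Lib.Cx

variable {k g : ℕ}

/-- Reductions given by an automaton on structured states. -/
theorem logRed_of_aut {St : Type} [Obj St] {N : List Bool → ℕ} {code : List Bool → St → ℕ}
    {decode : List Bool → ℕ → St} {good : List Bool → St → Prop}
    {step : List Bool → St → Fin k → St} (hN : LS N)
    (hf : LS fun p : List Bool × ℕ × Fin k => code p.1 (step p.1 (decode p.1 p.2.1) p.2.2))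
    (h1 : ∀ x s, good x s → code x s < N x ∧ decode x (code x s) = s)
    (h2 : ∀ x j, j < N x → good x (decode x j) ∧ code x (decode x j) = j)
    (h3 : ∀ x s a, good x s → good x (step x s a)) (h4 : ∀ x, 0 < N x)
    {A : List Bool → Bool} {L : Language (Fin k)}
    (h : ∀ x, A x = true ↔ ∃ w ∈ L, ∀ s s', good x s → good x s' →
      w.foldl (step x) s = w.foldl (step x) s') : LogReducible A (ConstrSync L) := by
  let f : List Bool → ℕ → ℕ → ℕ := fun x j a =>
    ((List.finRange k)[a]?).elim 0 fun a' => code x (step x (decode x j) a')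
  have hf1 : ∀ x j (a : Fin k), f x j a = code x (step x (decode x j) a) := fun x j a => by
    simp [f]
  have ok : ∀ x, Ok k (N x) (f x) := fun x j hj a ha => by
    rw [hf1 x j ⟨a, ha⟩]
    exact (h1 _ _ (h3 _ _ _ (h2 x j hj).1)).1
  have run : ∀ x (w : List (Fin k)) s, good x s →
      good x (w.foldl (step x) s) ∧ runN (f x) (code x s) w = code x (w.foldl (step x) s) := by
    intro x w
    induction w with
    | nil => exact fun s h => ⟨h, rfl⟩
    | cons a w ih =>
      intro s hs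
      rw [runN_cons, hf1, (h1 _ _ hs).2]
      exact ih _ (h3 _ _ _ hs)
  refine LS.logReducible (F := fun x => encN k (N x) (f x)) (ls_encN hN ?_) fun x => ?_
  · exact LS.optElim (by fun_prop) (by fun_prop)
      (LS.comp _ (fun p : (List Bool × ℕ × ℕ) × Fin k => (p.1.1, p.1.2.1, p.2)) hf (by fun_prop))
  · rw [Bool.eq_iff_iff, cs_encN L (ok x), h]
    refine exists_congr fun w => and_congr_right fun _ => ⟨fun h => ⟨h4 x, fun q hq q' hq' => ?_⟩,
      fun h s s' hs hs' => ?_⟩
    · rw [← (h2 x q hq).2, ← (h2 x q' hq').2, (run x w _ (h2 x q hq).1).2,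
        (run x w _ (h2 x q' hq').1).2, h _ _ (h2 x q hq).1 (h2 x q' hq').1]
    · have := h.2 _ (h1 x s hs).1 _ (h1 x s' hs').1
      rw [(run x w s hs).2, (run x w s' hs').2] at this
      rw [← (h1 x _ (run x w s hs).1).2, this, (h1 x _ (run x w s' hs').1).2]

/-- Events sent to the simulated automata. -/
inductive Ev (g : ℕ) : Type
  | check : Ev g
  | start : Ev g
  | lt : Fin g → Ev g
  deriving DecidableEq

/-- The events produced by a finite-state transducer. -/
def events {T : Type} (step : T → Fin k → T) (out : T → Fin k → List (Ev g)) :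
    T → List (Fin k) → List (Ev g)
  | _, [] => []
  | τ, a :: w => out τ a ++ events step out (step τ a) w

theorem events_append {T : Type} (step : T → Fin k → T) (out : T → Fin k → List (Ev g)) (τ : T)
    (u w : List (Fin k)) : events step out τ (u ++ w) =
      events step out τ u ++ events step out (u.foldl step τ) w := by
  induction u generalizing τ with
  | nil => rfl
  | cons a u ih => simp [events, ih]

/-- The reaction of a simulated automaton (`none` is the sink). -/
def upd (F : Fam g) (x : List Bool) (i : ℕ) (o : Option ℕ) : Ev g → Option ℕ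
  | .check => o.bind fun d => if F.acc x i d then none else some d
  | .start => o.map fun _ => F.st x i
  | .lt γ => o.map fun d => F.δ x i d γ

theorem foldl_upd_none (F : Fam g) (x : List Bool) (i : ℕ) (E : List (Ev g)) :
    E.foldl (upd F x i) none = none := by
  induction E with
  | nil => rfl
  | cons e E ih => cases e <;> exact ih

theorem ls_foldl_upd (F : Fam g) (E : List (Ev g)) :
    LS fun p : List Bool × ℕ × Option ℕ => E.foldl (upd F p.1 p.2.1) p.2.2 := by
  induction E with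
  | nil => exact LS.snd' |>.snd
  | cons e E ih =>
    have : LS fun p : List Bool × ℕ × Option ℕ => upd F p.1 p.2.1 p.2.2 e := by
      cases e <;> simp only [upd] <;> fun_prop
    exact LS.comp _ (fun p : List Bool × ℕ × Option ℕ => (p.1, p.2.1, upd F p.1 p.2.1 p.2.2 e)) ih
      (by fun_prop)

theorem foldl_upd_lt (F : Fam g) {x : List Bool} {i : ℕ} (hi : i < F.n x) (E : List (Ev g)) :
    ∀ o : Option ℕ, (∀ d ∈ o, d < F.S x) → ∀ d ∈ E.foldl (upd F x i) o, d < F.S x := by
  induction E with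
  | nil => exact fun _ h => h
  | cons e E ih =>
    intro o h
    refine ih _ ?_
    rcases o with _ | d
    · cases e <;> simp [upd]
    · have := h d rfl
      cases e with
      | check => simp only [upd, Option.bind_some]; split_ifs <;> simp [this]
      | start => simp [upd, F.st_lt _ _ hi]
      | lt γ => simp [upd, F.δ_lt _ _ _ _ hi this]

theorem exists_words (F : Fam g) (E : List (Ev g)) : ∀ u : List (Fin g),
    ∃ W : List (List (Fin g)), W.length ≤ E.count .check ∧ ∀ x i, (∀ w ∈ W, ¬F.Acc x i w) →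
      E.foldl (upd F x i) (some (u.foldl (F.δ x i) (F.st x i))) ≠ none := by
  induction E with
  | nil => exact fun _ => ⟨[], le_rfl, fun _ _ _ => by simp⟩
  | cons e E ih =>
    intro u
    cases e with
    | check =>
      obtain ⟨W, h1, h2⟩ := ih u
      refine ⟨u :: W, by simpa using h1, fun x i h => ?_⟩
      have : ¬F.acc x i (u.foldl (F.δ x i) (F.st x i)) = true := h u List.mem_cons_self
      simp only [List.foldl_cons, upd, Option.bind_some]
      rw [if_neg this]
      exact h2 x i fun w hw => h w (List.mem_cons_of_mem _ hw)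
    | start =>
      obtain ⟨W, h1, h2⟩ := ih []
      exact ⟨W, by simpa using h1, h2⟩
    | lt γ =>
      obtain ⟨W, h1, h2⟩ := ih (u ++ [γ])
      refine ⟨W, by simpa using h1, fun x i h => ?_⟩
      simpa [upd] using h2 x i h

theorem foldl_upd_of_infix (F : Fam g) {x : List Bool} {i : ℕ} {v : List (Fin g)}
    (hv : F.Acc x i v) {E : List (Ev g)} (h : .start :: (v.map .lt ++ [.check]) <:+: E)
    (o : Option ℕ) : E.foldl (upd F x i) o = none := by
  obtain ⟨E1, E2, rfl⟩ := h
  have key : ∀ (v : List (Fin g)) d, (v.map Ev.lt).foldl (upd F x i) (some d) =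
      some (v.foldl (F.δ x i) d) := by
    intro v
    induction v with
    | nil => exact fun _ => rfl
    | cons γ v ih => exact fun d => ih _
  rw [List.foldl_append, List.foldl_append]
  rcases E1.foldl (upd F x i) o with _ | d
  · rw [foldl_upd_none, foldl_upd_none]
  · have : F.acc x i (v.foldl (F.δ x i) (F.st x i)) = true := hv
    simp [upd, key, this, foldl_upd_none]

/-- The generic reduction. -/
theorem logRed_of_tracker {T G : Type} [Finite T] [Finite G] (γ0 : G) (step : T → Fin k → T)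
    (out : T → Fin k → List (Ev g)) (gs : G → Fin k → G) {L : Language (Fin k)} (K : ℕ) (τ0 : T)
    (hno : ∀ w ∈ L, (∀ γ γ', w.foldl gs γ = w.foldl gs γ') →
      (events step out τ0 w).count .check ≤ K)
    (hyes : ∀ v : List (Fin g), ∃ w ∈ L, (∀ γ γ', w.foldl gs γ = w.foldl gs γ') ∧
      ∀ τ, .start :: (v.map .lt ++ [.check]) <:+: events step out τ w)
    {A : List Bool → Bool} (F0 : Fam g)
    (hA : ∀ x, A x = true ↔ ∃ w, ∀ i < F0.n x, F0.Acc x i w) : LogReducible A (ConstrSync L) := by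
  classical
  obtain ⟨F, hF⟩ := F0.exists_pow K
  have := Fintype.ofFinite T
  have := Fintype.ofFinite G
  let _ := Obj.ofFinite T
  let _ := Obj.ofFinite G
  let tl : List T := Finset.univ.toList
  let gl : List G := Finset.univ.toList
  have ht : ∀ τ, tl.idxOf τ < tl.length := fun τ => List.idxOf_lt_length_of_mem (by simp [tl])
  have hg : ∀ τ, gl.idxOf τ < gl.length := fun τ => List.idxOf_lt_length_of_mem (by simp [gl])
  have ht1 : ∀ τ, tl.getD (tl.idxOf τ) τ0 = τ := fun τ => by
    rw [List.getD_eq_getElem _ _ (ht τ), List.getElem_idxOf]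
  have hg1 : ∀ τ, gl.getD (gl.idxOf τ) γ0 = τ := fun τ => by
    rw [List.getD_eq_getElem _ _ (hg τ), List.getElem_idxOf]
  have ht2 : ∀ j < tl.length, tl.idxOf (tl.getD j τ0) = j := fun j hj => by
    rw [List.getD_eq_getElem _ _ hj, (Finset.nodup_toList _).idxOf_getElem]
  have hg2 : ∀ j < gl.length, gl.idxOf (gl.getD j γ0) = j := fun j hj => by
    rw [List.getD_eq_getElem _ _ hj, (Finset.nodup_toList _).idxOf_getElem]
  let astep : List Bool → G × Option (T × ℕ × ℕ) → Fin k → G × Option (T × ℕ × ℕ) := fun x s a =>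
    (gs s.1 a, s.2.bind fun t => ((out t.1 a).foldl (upd F x t.2.1) (some t.2.2)).map fun d =>
      (step t.1 a, t.2.1, d))
  have hls : LS fun p : List Bool × (G × Option (T × ℕ × ℕ)) × Fin k => astep p.1 p.2.1 p.2.2 := by
    refine LS.pair (LS.finite_comp (fun q : G × Fin k => gs q.1 q.2) (g := fun p :
      List Bool × (G × Option (T × ℕ × ℕ)) × Fin k => (p.2.1.1, p.2.2)) (by fun_prop))
      (LS.optBind (by fun_prop) (LS.optMap ?_ (LS.pair ?_ (by fun_prop))))
    · exact LS.finite_family (β := T × Fin k) (f := fun q (p : (List Bool ×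
        (G × Option (T × ℕ × ℕ)) × Fin k) × T × ℕ × ℕ) =>
          (out q.1 q.2).foldl (upd F p.1.1 p.2.2.1) (some p.2.2.2))
        (fun q => LS.comp _ (fun p : (List Bool × (G × Option (T × ℕ × ℕ)) × Fin k) × T × ℕ × ℕ =>
          (p.1.1, p.2.2.1, some p.2.2.2)) (ls_foldl_upd F (out q.1 q.2)) (by fun_prop))
        (g := fun p => (p.2.1, p.1.2.2)) (by fun_prop)
    · exact LS.finite_comp (fun q : T × Fin k => step q.1 q.2) (g := fun p : ((List Bool ×
        (G × Option (T × ℕ × ℕ)) × Fin k) × T × ℕ × ℕ) × ℕ => (p.1.2.1, p.1.1.2.2)) (by fun_prop)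
  have hrun : ∀ x (w : List (Fin k)) γ o, w.foldl (astep x) (γ, o) = (w.foldl gs γ,
      o.bind fun t => ((events step out t.1 w).foldl (upd F x t.2.1) (some t.2.2)).map fun d =>
        (w.foldl step t.1, t.2.1, d)) := by
    intro x w
    induction w with
    | nil => intro γ o; cases o <;> rfl
    | cons a w ih =>
      intro γ o
      rw [List.foldl_cons, ih]
      rcases o with _ | ⟨τ, i, d⟩
      · rfl
      · simp only [events, List.foldl_append, List.foldl_cons, Option.bind_some]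
        rcases (out τ a).foldl (upd F x i) (some d) with _ | d'
        · simp [foldl_upd_none]
        · simp
  let code : List Bool → G × Option (T × ℕ × ℕ) → ℕ := fun x s =>
    (s.2.elim 0 fun t => (t.2.1 * F.S x + t.2.2) * tl.length + tl.idxOf t.1 + 1) * gl.length +
      gl.idxOf s.1
  let decode : List Bool → ℕ → G × Option (T × ℕ × ℕ) := fun x j =>
    (gl.getD (j % gl.length) γ0, if j / gl.length = 0 then none else
      some (tl.getD ((j / gl.length - 1) % tl.length) τ0, (j / gl.length - 1) / tl.length / F.S x,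
        (j / gl.length - 1) / tl.length % F.S x))
  refine logRed_of_aut (N := fun x => (F.n x * F.S x * tl.length + 1) * gl.length) (code := code)
    (decode := decode) (good := fun x s => ∀ t ∈ s.2, t.2.1 < F.n x ∧ t.2.2 < F.S x)
    (step := astep) (by fun_prop) ?_ ?_ ?_ ?_
    (fun x => Nat.mul_pos (Nat.succ_pos _) ((Nat.zero_le _).trans_lt (hg γ0))) fun x => ?_
  · have h1 : LS fun p : List Bool × ℕ × Fin k => astep p.1 (decode p.1 p.2.1) p.2.2 :=
      LS.comp _ (fun p : List Bool × ℕ × Fin k => (p.1, decode p.1 p.2.1, p.2.2)) hls (by fun_prop)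
    have h2 : LS fun p : List Bool × G × Option (T × ℕ × ℕ) => code p.1 p.2 := by fun_prop
    exact LS.comp _ (fun p : List Bool × ℕ × Fin k => (p.1, astep p.1 (decode p.1 p.2.1) p.2.2))
      h2 (LS.pair LS.fst' h1)
  · rintro x ⟨γ, _ | ⟨τ, i, d⟩⟩ h
    · refine ⟨pr_lt (Nat.succ_pos _) (hg _), ?_⟩
      simp only [code, decode, pr_mod (hg _), pr_div (hg _), hg1]
      rfl
    · obtain ⟨hi, hd⟩ := h _ rfl
      refine ⟨pr_lt (Nat.succ_lt_succ (pr_lt (pr_lt hi hd) (ht _))) (hg _), ?_⟩
      simp only [code, decode, pr_mod (hg _), pr_div (hg _), hg1, Option.elim_some,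
        Nat.add_sub_cancel, pr_mod (ht _), pr_div (ht _), ht1, pr_mod hd, pr_div hd]
      rfl
  · intro x j hj
    have a1 := div_lt_of_lt hj
    have a2 := mod_lt_of_lt hj
    by_cases h0 : j / gl.length = 0
    · simp only [code, decode, h0, if_true, hg2 _ a2, Option.elim_none]
      refine ⟨by simp, ?_⟩
      have := Nat.div_add_mod' j gl.length
      rwa [h0] at this
    · have a3 : j / gl.length - 1 < F.n x * F.S x * tl.length :=
        Nat.sub_one_lt_of_le (Nat.pos_of_ne_zero h0) (Nat.le_of_lt_succ a1)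
      have a4 := div_lt_of_lt a3
      simp only [code, decode, h0, if_false, hg2 _ a2, Option.elim_some,
        ht2 _ (mod_lt_of_lt a3), Nat.div_add_mod']
      refine ⟨fun t ht => ?_, ?_⟩
      · obtain rfl := Option.some.inj ht
        exact ⟨div_lt_of_lt a4, mod_lt_of_lt a4⟩
      · rw [Nat.sub_add_cancel (Nat.pos_of_ne_zero h0), Nat.div_add_mod']
  · rintro x ⟨γ, _ | ⟨τ, i, d⟩⟩ a h t ht
    · cases ht
    · obtain ⟨hi, hd⟩ := h _ rfl
      simp only [astep, Option.bind_some, Option.mem_def, Option.map_eq_some_iff] at ht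
      obtain ⟨d', h1, rfl⟩ := ht
      exact ⟨hi, foldl_upd_lt F hi _ _ (by simpa using hd) d' h1⟩
  · rw [hA]
    constructor
    · rintro ⟨v, hv⟩
      obtain ⟨w, h1, h2, h3⟩ := hyes v
      refine ⟨w, h1, ?_⟩
      have : ∀ s : G × Option (T × ℕ × ℕ), (∀ t ∈ s.2, t.2.1 < F.n x ∧ t.2.2 < F.S x) →
          w.foldl (astep x) s = (w.foldl gs γ0, none) := by
        rintro ⟨γ, _ | ⟨τ, i, d⟩⟩ h
        · rw [hrun, h2 γ γ0]; rfl
        · rw [hrun, h2 γ γ0, Option.bind_some,
            foldl_upd_of_infix F ((hF x).1 v hv i (h _ rfl).1) (h3 τ)]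
          rfl
      intro s s' hs hs'
      rw [this s hs, this s' hs']
    · rintro ⟨w, h1, h2⟩
      by_contra hne
      have h3 : ∀ γ γ', w.foldl gs γ = w.foldl gs γ' := fun γ γ' => by
        have := h2 (γ, none) (γ', none) (by simp) (by simp)
        rw [hrun, hrun] at this
        exact congrArg Prod.fst this
      obtain ⟨W, h4, h5⟩ := exists_words F (events step out τ0 w) []
      obtain ⟨i, hi, h6⟩ := (hF x).2 (by simpa using hne) W (h4.trans (hno w h1 h3))
      have := h2 (γ0, none) (γ0, some (τ0, i, F.st x i)) (by simp)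
        (by simpa using ⟨hi, F.st_lt _ _ hi⟩)
      rw [hrun, hrun] at this
      have h7 := congrArg Prod.snd this
      simp only [Option.bind_none, Option.bind_some] at h7
      exact h5 x i h6 (Option.map_eq_none_iff.1 h7.symm)

end Pool.Agent.Work.MP_dbfdd9_lc
end

-- merged part: Pool.Agent.Work.MP_dbfdd9_lc.Scc
section
/-!
Words readable inside a strongly connected component, magic words, and the basic tracker.
-/

namespace Pool.Agent.Work.MP_dbfdd9_lc

variable {σ P : Type} (δ : P → σ → P)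

/-- Reachability. -/
def Reach (q q' : P) : Prop := ∃ w : List σ, w.foldl δ q = q'

/-- The word `w` is read from `q` inside the component of `q`. -/
def Rd (q : P) (w : List σ) : Prop := Reach δ (w.foldl δ q) q

/-- Same component. -/
def Sim (p q : P) : Prop := Reach δ p q ∧ Reach δ q p

/-- Words readable inside the component of `p`. -/
def CC (p : P) (w : List σ) : Prop := ∃ q, Sim δ p q ∧ Rd δ q w

/-- Useful states. -/
def Useful (p0 : P) (F : Set P) (q : P) : Prop := Reach δ p0 q ∧ ∃ w : List σ, w.foldl δ q ∈ F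

/-- The number of reachable states. -/
noncomputable def rho (q : P) : ℕ := {q' | Reach δ q q'}.ncard

/-- Images along paths inside components of states in `U`. -/
def img (U : P → Prop) (S : Set P) (w : List σ) : Set P :=
  {q' | ∃ q ∈ S, U q ∧ Rd δ q w ∧ q' = w.foldl δ q}

variable {δ}

theorem Reach.refl (q : P) : Reach δ q q := ⟨[], rfl⟩

theorem Reach.trans {a b c : P} (h : Reach δ a b) (h' : Reach δ b c) : Reach δ a c := by
  obtain ⟨u, rfl⟩ := h
  obtain ⟨w, rfl⟩ := h'
  exact ⟨u ++ w, List.foldl_append⟩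

theorem reach_foldl (q : P) (w : List σ) : Reach δ q (w.foldl δ q) := ⟨w, rfl⟩

theorem Sim.refl (q : P) : Sim δ q q := ⟨.refl q, .refl q⟩
theorem Sim.symm {a b : P} (h : Sim δ a b) : Sim δ b a := ⟨h.2, h.1⟩
theorem Sim.trans {a b c : P} (h : Sim δ a b) (h' : Sim δ b c) : Sim δ a c :=
  ⟨h.1.trans h'.1, h'.2.trans h.2⟩

theorem Rd.nil (q : P) : Rd δ q [] := Reach.refl q

theorem Rd.sim {q : P} {w : List σ} (h : Rd δ q w) : Sim δ q (w.foldl δ q) := ⟨reach_foldl _ _, h⟩

theorem rd_append {q : P} {u w : List σ} :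
    Rd δ q (u ++ w) ↔ Rd δ q u ∧ Rd δ (u.foldl δ q) w := by
  unfold Rd
  rw [List.foldl_append]
  exact ⟨fun h => ⟨(reach_foldl _ _).trans h, h.trans (reach_foldl _ _)⟩, fun h => h.2.trans h.1⟩

theorem rd_cons {q : P} {a : σ} {w : List σ} :
    Rd δ q (a :: w) ↔ Rd δ q [a] ∧ Rd δ (δ q a) w := rd_append (u := [a])

theorem rd_loop {q : P} {u : List σ} (h : u.foldl δ q = q) : Rd δ q u := by
  unfold Rd; rw [h]; exact .refl _

theorem rd_loop_append {q : P} {u w : List σ} (h : u.foldl δ q = q) :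
    Rd δ q (u ++ w) ↔ Rd δ q w := by
  rw [rd_append, h, and_iff_right (rd_loop h)]

theorem Rd.cc {q : P} {w : List σ} (h : Rd δ q w) : CC δ q w := ⟨q, .refl q, h⟩

theorem CC.of_inf {p : P} {u w : List σ} (h : CC δ p w) (e : u <:+: w) : CC δ p u := by
  obtain ⟨a, b, rfl⟩ := e
  obtain ⟨q, h1, h2⟩ := h
  have h3 := rd_append.1 (rd_append.1 h2).1
  exact ⟨_, h1.trans h3.1.sim, h3.2⟩

theorem CC.of_sim {p q : P} {w : List σ} (h : CC δ p w) (e : Sim δ p q) : CC δ q w :=
  let ⟨r, h1, h2⟩ := h; ⟨r, e.symm.trans h1, h2⟩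

theorem Useful.of_sim {p0 : P} {F : Set P} {p q : P} (h : Useful δ p0 F p) (e : Sim δ p q) :
    Useful δ p0 F q := by
  obtain ⟨w, hw⟩ := h.2
  obtain ⟨u, hu⟩ := e.2
  exact ⟨h.1.trans e.1, u ++ w, by rwa [List.foldl_append, hu]⟩

theorem exists_split {q : P} {z : List σ} (h : ¬Rd δ q z) :
    ∃ z1 a z2, z = z1 ++ a :: z2 ∧ Rd δ q z1 ∧ ¬Rd δ q (z1 ++ [a]) := by
  induction z using List.reverseRecOn with
  | nil => exact absurd (Rd.nil q) h
  | append_singleton z a ih =>
    by_cases hz : Rd δ q z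
    · exact ⟨z, a, [], rfl, hz, h⟩
    · obtain ⟨z1, b, z2, rfl, h1, h2⟩ := ih hz
      exact ⟨z1, b, z2 ++ [a], by simp, h1, h2⟩

theorem rho_le [Finite P] (q : P) (w : List σ) : rho δ (w.foldl δ q) ≤ rho δ q :=
  Set.ncard_le_ncard fun _ h => (reach_foldl q w).trans h

theorem rho_lt [Finite P] {q : P} {w : List σ} (h : ¬Rd δ q w) : rho δ (w.foldl δ q) < rho δ q :=
  Set.ncard_lt_ncard ⟨fun _ h => (reach_foldl q w).trans h, fun h' => h (h' (Reach.refl q))⟩

section img

variable {U : P → Prop} (hU : ∀ p q, U p → Sim δ p q → U q)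
include hU

theorem img_append (S : Set P) (u w : List σ) :
    img δ U S (u ++ w) = img δ U (img δ U S u) w := by
  ext q'
  constructor
  · rintro ⟨q, h1, h2, h3, rfl⟩
    have := rd_append.1 h3
    exact ⟨_, ⟨q, h1, h2, this.1, rfl⟩, hU _ _ h2 this.1.sim, this.2, List.foldl_append⟩
  · rintro ⟨_, ⟨q, h1, h2, h3, rfl⟩, -, h4, rfl⟩
    exact ⟨q, h1, h2, rd_append.2 ⟨h3, h4⟩, List.foldl_append.symm⟩

omit hU in
theorem img_mono {S S' : Set P} (h : S ⊆ S') (w : List σ) : img δ U S w ⊆ img δ U S' w :=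
  fun _ ⟨q, h1, h2⟩ => ⟨q, h h1, h2⟩

omit hU in
theorem ncard_img_le [Finite P] (S : Set P) (w : List σ) :
    (img δ U S w).ncard ≤ {q ∈ S | Rd δ q w}.ncard :=
  le_trans (Set.ncard_le_ncard (t := (fun q => w.foldl δ q) '' {q ∈ S | Rd δ q w})
    fun _ ⟨q, h1, _, h3, h4⟩ => ⟨q, ⟨h1, h3⟩, h4.symm⟩) (Set.ncard_image_le)

/-- Magic words. -/
theorem exists_magic [Finite P] {p : P} (hp : U p) {u : List σ} (hu : u.foldl δ p = p)
    (hu0 : u ≠ []) : ∃ m : List σ, m ≠ [] ∧ m.foldl δ p = p ∧ ∀ q ∈ img δ U Set.univ m,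
      (∀ y, Rd δ p y → Rd δ q y) ∧ (Sim δ p q → ∀ y, Rd δ q y → Rd δ p y) := by
  classical
  have ex : ∃ n, ∃ m, CC δ p m ∧ (img δ U Set.univ m).ncard = n := ⟨_, [], (Rd.nil p).cc, rfl⟩
  obtain ⟨m0, ⟨q1, h1, h2⟩, h3⟩ := Nat.find_spec ex
  obtain ⟨a, ha⟩ := h1.1
  obtain ⟨b, hb⟩ := h2.trans h1.2
  have hm : (a ++ m0 ++ (b ++ u)).foldl δ p = p := by simp [ha, hb, hu]
  have hc : (img δ U Set.univ (a ++ m0 ++ (b ++ u))).ncard ≤ Nat.find ex := by
    rw [img_append hU _ (a ++ m0), img_append hU _ a, ← h3]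
    exact (ncard_img_le _ _).trans (Set.ncard_le_ncard fun q hq =>
      img_mono (Set.subset_univ _) _ hq.1)
  have hne : a ++ m0 ++ (b ++ u) ≠ [] := by simp [hu0]
  generalize a ++ m0 ++ (b ++ u) = m at hm hc hne
  have key : ∀ y, CC δ p (m ++ y) → ∀ q ∈ img δ U Set.univ m, Rd δ q y := fun y hy q hq => by
    have h4 : Nat.find ex ≤ _ := Nat.find_min' ex ⟨m ++ y, hy, rfl⟩
    rw [img_append hU] at h4
    have := Set.eq_of_subset_of_ncard_le (Set.sep_subset (img δ U Set.univ m) fun q => Rd δ q y)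
      (hc.trans (h4.trans (ncard_img_le _ _)))
    rw [← this] at hq
    exact hq.2
  refine ⟨m, hne, hm, fun q hq => ⟨fun y hy => key y ((rd_loop_append hm).2 hy).cc q hq,
    fun hs y hy => key y ?_ p ⟨p, trivial, hp, rd_loop hm, hm.symm⟩⟩⟩
  obtain ⟨r, -, -, h5, rfl⟩ := hq
  exact ⟨r, hs.trans h5.sim.symm, rd_append.2 ⟨h5, hy⟩⟩

end img

/-- The data of a useful state with maximal language and a magic loop. -/
structure Magic (δ : P → σ → P) (U : P → Prop) (p : P) (m : List σ) : Prop where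
  hU : ∀ p q, U p → Sim δ p q → U q
  hp : U p
  ne : m ≠ []
  loop : m.foldl δ p = p
  mag : ∀ q ∈ img δ U Set.univ m,
    (∀ y, Rd δ p y → Rd δ q y) ∧ (Sim δ p q → ∀ y, Rd δ q y → Rd δ p y)
  max : ∀ q, U q → (∀ w, CC δ p w → CC δ q w) → ∀ w, CC δ q w → CC δ p w

variable (δ)

/-- Words readable inside the component of `p` from a state of `S`. -/
def Fol (p : P) (S : Set P) (y : List σ) : Prop := ∃ q ∈ S, Sim δ p q ∧ Rd δ q y

/-- All states of `S` have a language contained in that of `p`. -/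
def Seen (U : P → Prop) (p : P) (S : Set P) : Prop := ∀ q ∈ S, U q → ∀ w, CC δ q w → CC δ p w

open Classical in
/-- The basic tracker. -/
noncomputable def t1 (U : P → Prop) (p : P) (S : Set P) (a : σ) : Set P :=
  if Fol δ p S [a] then img δ U S [a] else img δ U Set.univ []

/-- The tracker is locked to `p`. -/
def Lock (U : P → Prop) (p : P) (S : Set P) : Prop := Seen δ U p S ∧ Fol δ p S = Rd δ p

variable {δ}

theorem Fol.of_append {p : P} {S : Set P} {u w : List σ} (h : Fol δ p S (u ++ w)) : Fol δ p S u :=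
  let ⟨q, h1, h2, h3⟩ := h; ⟨q, h1, h2, (rd_append.1 h3).1⟩

theorem Fol.cc {p : P} {S : Set P} {u : List σ} (h : Fol δ p S u) : CC δ p u :=
  let ⟨q, _, h2, h3⟩ := h; ⟨q, h2, h3⟩

theorem Seen.img {U : P → Prop} {p : P} {S : Set P} (h : Seen δ U p S) (w : List σ) :
    Seen δ U p (img δ U S w) := by
  rintro _ ⟨q, h1, h2, h3, rfl⟩ - y hy
  exact h q h1 h2 y (hy.of_sim h3.sim.symm)

namespace Magic

variable {U : P → Prop} {p : P} {m : List σ} (M : Magic δ U p m)
include M

theorem fol_img (S : Set P) (u y : List σ) :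
    Fol δ p (img δ U S u) y ↔ Fol δ p S (u ++ y) := by
  constructor
  · rintro ⟨_, ⟨q, h1, -, h3, rfl⟩, h4, h5⟩
    exact ⟨q, h1, h4.trans h3.sim.symm, rd_append.2 ⟨h3, h5⟩⟩
  · rintro ⟨q, h1, h2, h3⟩
    have := rd_append.1 h3
    exact ⟨_, ⟨q, h1, M.hU _ _ M.hp h2, this.1, rfl⟩, h2.trans this.1.sim, this.2⟩

theorem foldl_t1 {S : Set P} {a : σ} {w : List σ} (h : Fol δ p S (a :: w)) :
    (a :: w).foldl (t1 δ U p) S = img δ U S (a :: w) := by
  induction w generalizing S a with
  | nil => exact if_pos h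
  | cons b w ih =>
    rw [List.foldl_cons, t1, if_pos (Fol.of_append (u := [a]) h),
      ih ((M.fol_img _ _ _).2 h), ← img_append M.hU]
    rfl

theorem fol_foldl {S : Set P} {w : List σ} (h : Fol δ p S w) (y : List σ) :
    Fol δ p (w.foldl (t1 δ U p) S) y ↔ Fol δ p S (w ++ y) := by
  rcases w with _ | ⟨a, w⟩
  · rfl
  · rw [M.foldl_t1 h, M.fol_img]

theorem seen_foldl {S : Set P} {w : List σ} (h : Fol δ p S w) (hs : Seen δ U p S) :
    Seen δ U p (w.foldl (t1 δ U p) S) := by
  rcases w with _ | ⟨a, w⟩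
  · exact hs
  · rw [M.foldl_t1 h]; exact hs.img _

theorem lock_img {S : Set P} (h : Fol δ p S m) : Lock δ U p (img δ U S m) := by
  have sub : img δ U S m ⊆ img δ U Set.univ m := img_mono (Set.subset_univ _) _
  refine ⟨fun q hq hq' => M.max q hq' fun w ⟨r, h1, h2⟩ => ?_, funext fun y => propext ⟨?_, ?_⟩⟩
  · obtain ⟨t, rfl⟩ := h1.1
    exact ((M.mag q (sub hq)).1 (t ++ w) (rd_append.2 ⟨h1.2, h2⟩)).cc.of_inf
      (List.suffix_append t w).isInfix
  · rintro ⟨q, h1, h2, h3⟩
    exact (M.mag q (sub h1)).2 h2 y h3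
  · intro hy
    obtain ⟨q, h1, h2, -⟩ := (M.fol_img S m []).2 (by simpa using h)
    exact ⟨q, h1, h2, (M.mag q (sub h1)).1 y hy⟩

theorem foldl_t1_or {w : List σ} : ∀ {a : σ} {q : P} (S : Set P), Sim δ p q → Rd δ q (a :: w) →
    Fol δ p S (a :: w) ∨ (a :: w).foldl δ q ∈ (a :: w).foldl (t1 δ U p) S := by
  induction w with
  | nil =>
    intro a q S h1 h2
    by_cases h : Fol δ p S [a]
    · exact .inl h
    · refine .inr ?_
      simp only [List.foldl_cons, List.foldl_nil, t1, if_neg h]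
      exact ⟨_, trivial, M.hU _ _ M.hp (h1.trans h2.sim), .nil _, rfl⟩
  | cons b w ih =>
    intro a q S h1 h2
    have h3 := rd_cons.1 h2
    have h4 : Sim δ p (δ q a) := h1.trans h3.1.sim
    rcases ih (t1 δ U p S a) h4 h3.2 with h | h
    · by_cases h' : Fol δ p S [a]
      · rw [t1, if_pos h', M.fol_img] at h
        exact .inl h
      · refine .inr ?_
        rw [List.foldl_cons (f := t1 δ U p), M.foldl_t1 h, t1, if_neg h', ← img_append M.hU]
        exact ⟨_, trivial, M.hU _ _ M.hp h4, h3.2, rfl⟩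
    · exact .inr h

theorem lock_mm (S : Set P) : Lock δ U p ((m ++ m).foldl (t1 δ U p) S) := by
  obtain ⟨a, w, e⟩ := List.exists_cons_of_ne_nil M.ne
  have h0 : Rd δ p m := rd_loop M.loop
  have key : Fol δ p (m.foldl (t1 δ U p) S) m := by
    have := M.foldl_t1_or (a := a) (w := w) S (.refl p) (e ▸ h0)
    rw [← e, M.loop] at this
    rcases this with h | h
    · have h1 := M.foldl_t1 (e ▸ h)
      rw [← e] at h1
      rw [h1, (M.lock_img h).2]
      exact h0
    · exact ⟨p, h, .refl p, h0⟩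
  have h1 := M.foldl_t1 (e ▸ key)
  rw [← e] at h1
  rw [List.foldl_append, h1]
  exact M.lock_img key

theorem break_or {x y : List σ} (h : ¬CC δ p (x ++ m ++ y)) :
    ¬CC δ p (x ++ m) ∨ ¬CC δ p (m ++ y) := by
  by_contra hc
  push Not at hc
  obtain ⟨⟨q1, a1, a2⟩, ⟨q2, b1, b2⟩⟩ := hc
  have a3 := rd_append.1 a2
  have b3 := rd_append.1 b2
  refine h ⟨q1, a1, rd_append.2 ⟨a2, ?_⟩⟩
  rw [List.foldl_append]
  exact (M.mag _ ⟨_, trivial, M.hU _ _ M.hp (a1.trans a3.1.sim), a3.2, rfl⟩).1 y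
    ((M.mag _ ⟨_, trivial, M.hU _ _ M.hp b1, b3.1, rfl⟩).2 (b1.trans b3.1.sim) y b3.2)

end Magic

/-- The number of checks of a tracker is bounded on accepted words. -/
theorem count_check_le [Finite P] {k g : ℕ} {δ : P → Fin k → P} {p0 : P} {F : Set P} {p : P}
    {m : List (Fin k)} (M : Magic δ (Useful δ p0 F) p m) {T : Type} {step : T → Fin k → T}
    {out : T → Fin k → List (Ev g)} (prj : T → Set P) (fl : T → ℕ)
    (h1 : ∀ τ a, prj (step τ a) = t1 δ (Useful δ p0 F) p (prj τ) a)
    (hF : ∀ τ a, ¬Fol δ p (prj τ) [a] → (out τ a).count .check ≤ 1 ∧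
      (¬Seen δ (Useful δ p0 F) p (prj τ) → (out τ a).count .check = 0) ∧ fl (step τ a) = 1)
    (hN : ∀ τ a, Fol δ p (prj τ) [a] → (out τ a).count .check + fl (step τ a) ≤ fl τ ∧
      (fl (step τ a) = 0 → fl τ = 0 ∨ Seen δ (Useful δ p0 F) p (prj (step τ a))))
    (w : List (Fin k)) : ∀ (z : List (Fin k)) (q : P) (τ : T), Reach δ p0 q →
      (z ++ w).foldl δ q ∈ F → prj τ = img δ (Useful δ p0 F) Set.univ z →
      (fl τ = 0 → Seen δ (Useful δ p0 F) p (prj τ)) →
      (events step out τ w).count .check ≤ 2 * rho δ q + fl τ := by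
  induction w with
  | nil => intros; simp [events]
  | cons a w ih =>
    intro z q τ hq hw hz hs
    rw [events, List.count_append]
    by_cases h : Fol δ p (prj τ) [a]
    · obtain ⟨a1, a2⟩ := hN τ a h
      have e : prj (step τ a) = img δ (Useful δ p0 F) (prj τ) [a] := by rw [h1, t1, if_pos h]
      have := ih (z ++ [a]) q (step τ a) hq (by simpa using hw)
        (by rw [e, hz, img_append M.hU]) fun h0 => by
          rcases a2 h0 with h' | h'
          · rw [e]; exact (hs h').img _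
          · exact h'
      omega
    · obtain ⟨a1, a2, a3⟩ := hF τ a h
      have := ih [] ((z ++ [a]).foldl δ q) (step τ a) (hq.trans (reach_foldl _ _))
        (by simpa using hw) (by rw [h1, t1, if_neg h]) (by omega)
      by_cases h' : Seen δ (Useful δ p0 F) p (prj τ)
      · have hlt : rho δ ((z ++ [a]).foldl δ q) < rho δ q := rho_lt fun hr => h <| by
          have hu : Useful δ p0 F q := ⟨hq, _, hw⟩
          have hr' := (rd_append.1 hr).1
          obtain ⟨r, b1, b2⟩ := h' (z.foldl δ q) (hz ▸ ⟨q, trivial, hu, hr', rfl⟩)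
            (hu.of_sim hr'.sim) _ (hr.cc.of_sim hr'.sim)
          rw [hz, M.fol_img]
          exact ⟨r, trivial, b1, b2⟩
        omega
      · have := a2 h'
        have := rho_le (δ := δ) q (z ++ [a])
        have : fl τ ≠ 0 := fun h0 => h' (hs h0)
        omega

end Pool.Agent.Work.MP_dbfdd9_lc
end

-- merged part: Pool.Agent.Work.MP_dbfdd9_lc.TrackB
section
/-!
The unary tracker.
-/

namespace Pool.Agent.Work.MP_dbfdd9_lc

variable {k : ℕ} {P : Type}

/-- Powers of words. -/
def pw {σ : Type} (v : List σ) (e : ℕ) : List σ := (List.replicate e v).flatten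

@[simp] theorem pw_zero {σ : Type} (v : List σ) : pw v 0 = [] := rfl

theorem pw_succ {σ : Type} (v : List σ) (e : ℕ) : pw v (e + 1) = v ++ pw v e := rfl

theorem pw_add {σ : Type} (v : List σ) (e f : ℕ) : pw v (e + f) = pw v e ++ pw v f := by
  simp [pw, ← List.replicate_append_replicate]

theorem pw_succ' {σ : Type} (v : List σ) (e : ℕ) : pw v (e + 1) = pw v e ++ v := by
  rw [pw_add]; simp [pw]

@[simp] theorem length_pw {σ : Type} (v : List σ) (e : ℕ) : (pw v e).length = e * v.length := by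
  simp [pw]

theorem foldl_pw {σ : Type} {δ : P → σ → P} {p : P} {v : List σ} (h : v.foldl δ p = p) (e : ℕ) :
    (pw v e).foldl δ p = p := by
  induction e with
  | zero => rfl
  | succ e ih => rw [pw_succ, List.foldl_append, h, ih]

/-- Existence of a tracker for the language accepted from `p0`. -/
def HasTracker (g : ℕ) (δ : P → Fin k → P) (p0 : P) (F : Set P) : Prop :=
  ∃ (T : Type) (_ : Finite T) (step : T → Fin k → T) (out : T → Fin k → List (Ev g)) (K : ℕ)
    (τ0 : T), (∀ w : List (Fin k), w.foldl δ p0 ∈ F → (events step out τ0 w).count .check ≤ K) ∧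
    ∀ v : List (Fin g), ∃ w : List (Fin k), w.foldl δ p0 ∈ F ∧
      ∀ τ, .start :: (v.map .lt ++ [.check]) <:+: events step out τ w

variable (δ : P → Fin k → P) (U : P → Prop) (p : P) (Q : ℕ)

open Classical in
/-- Transition of the unary tracker. -/
noncomputable def stepB (τ : Set P × Fin (Q + 1)) (a : Fin k) : Set P × Fin (Q + 1) :=
  (t1 δ U p τ.1 a, if Fol δ p τ.1 [a] then ⟨(τ.2.val + 1) % (Q + 1), Nat.mod_lt _ Q.succ_pos⟩
    else 0)

open Classical in
/-- Output of the unary tracker. -/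
noncomputable def outB (τ : Set P × Fin (Q + 1)) (a : Fin k) : List (Ev 1) :=
  if Fol δ p τ.1 [a] then (if τ.2.val = Q then [.lt 0] else [])
  else if Seen δ U p τ.1 then [.check, .start] else [.start]

variable {δ U p Q}

theorem foldl_stepB (w : List (Fin k)) (τ : Set P × Fin (Q + 1)) :
    (w.foldl (stepB δ U p Q) τ).1 = w.foldl (t1 δ U p) τ.1 := by
  induction w generalizing τ with
  | nil => rfl
  | cons a w ih => exact ih _

theorem eventsB_run {m : List (Fin k)} (M : Magic δ U p m) (w : List (Fin k)) :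
    ∀ τ : Set P × Fin (Q + 1), Fol δ p τ.1 w → events (stepB δ U p Q) (outB δ U p Q) τ w =
      List.replicate ((τ.2.val + w.length) / (Q + 1)) (.lt 0) := by
  induction w with
  | nil => intro τ _; simp [events, Nat.div_eq_of_lt τ.2.2]
  | cons a w ih =>
    intro τ h
    have h1 : Fol δ p τ.1 [a] := Fol.of_append (u := [a]) h
    rw [events, ih _ (by simp only [stepB, t1, if_pos h1]; exact (M.fol_img _ _ _).2 h)]
    simp only [outB, stepB, if_pos h1, List.length_cons]
    by_cases hc : τ.2.val = Q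
    · rw [if_pos hc, hc, Nat.mod_self, Nat.zero_add,
        show Q + (w.length + 1) = w.length + (Q + 1) by omega, Nat.add_div_right _ Q.succ_pos]
      rfl
    · rw [if_neg hc, Nat.mod_eq_of_lt (by have := τ.2.2; omega), List.nil_append]
      congr 2; omega

theorem eventsB_short (z : List (Fin k)) : ∀ τ : Set P × Fin (Q + 1), τ.2.val + z.length ≤ Q →
    (events (stepB δ U p Q) (outB δ U p Q) τ z = [] ∨
      ∃ E, events (stepB δ U p Q) (outB δ U p Q) τ z = E ++ [.start]) ∧
    (z.foldl (stepB δ U p Q) τ).2.val ≤ τ.2.val + z.length := by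
  induction z with
  | nil => exact fun _ _ => ⟨.inl rfl, le_rfl⟩
  | cons a z ih =>
    intro τ h
    rw [List.length_cons] at h
    have h1 : (stepB δ U p Q τ a).2.val ≤ τ.2.val + 1 := by
      simp only [stepB]; split_ifs
      · exact Nat.mod_le _ _
      · simp
    have h2 : outB δ U p Q τ a = [] ∨ ∃ E, outB δ U p Q τ a = E ++ [.start] := by
      simp only [outB]; split_ifs
      · omega
      · exact .inl rfl
      · exact .inr ⟨[.check], rfl⟩
      · exact .inr ⟨[], rfl⟩
    obtain ⟨a1, a2⟩ := ih (stepB δ U p Q τ a) (by omega)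
    refine ⟨?_, by rw [List.foldl_cons, List.length_cons]; omega⟩
    rw [events]
    rcases a1 with a1 | ⟨E, a1⟩ <;> rw [a1]
    · simpa using h2
    · exact .inr ⟨_, (List.append_assoc _ _ _).symm⟩

theorem eventsB_fail {m : List (Fin k)} (M : Magic δ U p m) (z : List (Fin k)) :
    ∀ τ : Set P × Fin (Q + 1), z.length ≤ Q → z ≠ [] → ¬Fol δ p τ.1 z →
    (∃ E, events (stepB δ U p Q) (outB δ U p Q) τ z = E ++ [.start]) ∧
    (z.foldl (stepB δ U p Q) τ).2.val ≤ z.length := by
  induction z with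
  | nil => exact fun _ _ h => absurd rfl h
  | cons a z ih =>
    intro τ h _ hf
    rw [List.length_cons] at h
    rw [events, List.foldl_cons, List.length_cons]
    by_cases h1 : Fol δ p τ.1 [a]
    · obtain ⟨⟨E, a1⟩, a2⟩ := ih (stepB δ U p Q τ a) (by omega) (by rintro rfl; exact hf h1)
        (by simp only [stepB, t1, if_pos h1]; exact fun h => hf ((M.fol_img _ _ _).1 h))
      exact ⟨⟨_, by rw [a1, List.append_assoc]⟩, by omega⟩
    · have e : (stepB δ U p Q τ a).2.val = 0 := by simp [stepB, h1]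
      obtain ⟨a1, a2⟩ := eventsB_short (δ := δ) (U := U) (p := p) z (stepB δ U p Q τ a) (by omega)
      refine ⟨?_, by omega⟩
      rcases a1 with a1 | ⟨E, a1⟩ <;> rw [a1]
      · simp only [outB, if_neg h1]; split_ifs
        · exact ⟨[.check], rfl⟩
        · exact ⟨[], rfl⟩
      · exact ⟨_, (List.append_assoc _ _ _).symm⟩

theorem hasTracker_one [Finite P] {p0 : P} {F : Set P} {m : List (Fin k)}
    (M : Magic δ (Useful δ p0 F) p m) {x s1 s2 y : List (Fin k)} (hx : x.foldl δ p0 = p)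
    (hs1 : s1.foldl δ p = p) (hs2 : s2.foldl δ p = p) (hy : y.foldl δ p ∈ F)
    (hl : ¬CC δ p (x ++ s1)) (hr : ¬CC δ p (s2 ++ y)) : HasTracker 1 δ p0 F := by
  set z := x ++ s1 ++ (m ++ m) with hz
  set J := z.length + (s2 ++ y).length with hJ
  have hm := List.length_pos_of_ne_nil M.ne
  obtain ⟨Q, hQ⟩ : ∃ Q, Q + 1 = (J + 1) * m.length := ⟨(J + 1) * m.length - 1, by
    have := Nat.mul_pos J.succ_pos hm
    simp only [Nat.succ_eq_add_one] at this; omega⟩
  have hJQ : J ≤ Q := by nlinarith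
  refine ⟨Set P × Fin (Q + 1), inferInstance, stepB δ (Useful δ p0 F) p Q,
    outB δ (Useful δ p0 F) p Q, 2 * rho δ p0 + 1, (img δ (Useful δ p0 F) Set.univ [], 0), fun w hw => ?_, fun v => ?_⟩
  · refine count_check_le M Prod.fst (fun _ => 1) (fun _ _ => rfl) (fun τ a h => ?_)
      (fun τ a h => ?_) w [] p0 _ (.refl _) hw rfl (by simp)
    · simp only [outB, if_neg h]
      split_ifs with h' <;> simp [h']
    · simp only [outB, if_pos h]
      split_ifs <;> simp
  · obtain ⟨z1, a, z2, e, h1, h2⟩ := exists_split (fun h : Rd δ p (s2 ++ y) => hr h.cc)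
    have hN := foldl_pw M.loop (v.length * (J + 1))
    refine ⟨z ++ (pw m (v.length * (J + 1)) ++ (s2 ++ y)), by
      simpa [hz, hx, hs1, M.loop, hN, hs2] using hy, fun τ => ?_⟩
    obtain ⟨⟨E, a1⟩, a2⟩ := eventsB_fail M z τ (by omega) (by simp [hz, M.ne])
      fun h => hl (Fol.of_append h).cc
    have hlock : Lock δ (Useful δ p0 F) p (z.foldl (stepB δ (Useful δ p0 F) p Q) τ).1 := by
      rw [foldl_stepB, hz, List.foldl_append]; exact M.lock_mm _
    rw [events_append, a1, e, ← List.append_assoc (pw _ _), events_append]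
    generalize z.foldl (stepB δ (Useful δ p0 F) p Q) τ = τ1 at a2 hlock
    have hf : Fol δ p τ1.1 (pw m (v.length * (J + 1)) ++ z1) := by
      rw [hlock.2, rd_loop_append hN]; exact h1
    rw [eventsB_run M _ _ hf, events]
    have hl1 : z1.length < (s2 ++ y).length := by rw [e]; simp
    have hdiv : (τ1.2.val + (pw m (v.length * (J + 1)) ++ z1).length) / (Q + 1) = v.length := by
      rw [List.length_append, length_pw, Nat.mul_assoc, ← hQ,
        show τ1.2.val + (v.length * (Q + 1) + z1.length) = v.length * (Q + 1) +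
          (τ1.2.val + z1.length) by omega, Lib.Cx.pr_div (by omega)]
    have hout : outB δ (Useful δ p0 F) p Q ((pw m (v.length * (J + 1)) ++ z1).foldl
        (stepB δ (Useful δ p0 F) p Q) τ1) a = [.check, .start] := by
      rw [outB, foldl_stepB, if_neg, if_pos (M.seen_foldl hf hlock.1)]
      rw [M.fol_foldl hf, hlock.2, List.append_assoc, rd_loop_append hN]
      exact h2
    have hv : v.map Ev.lt = List.replicate v.length (.lt 0) := by
      rw [List.eq_replicate_iff]
      refine ⟨by simp, fun b hb => ?_⟩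
      obtain ⟨γ, -, rfl⟩ := List.mem_map.1 hb
      rw [Subsingleton.elim γ 0]
    rw [hdiv, hout, hv]
    exact ⟨E, _, by simp only [List.append_assoc, List.cons_append, List.nil_append]; rfl⟩

end Pool.Agent.Work.MP_dbfdd9_lc
end

-- merged part: Pool.Agent.Work.MP_dbfdd9_lc.TrackA
section
/-!
The tracker for a branching component.
-/

namespace Pool.Agent.Work.MP_dbfdd9_lc

variable {k : ℕ} {P : Type}

section layer2

variable (g R : ℕ)

/-- Decoder states: number of zeros read, reading mode, permission to check. -/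
abbrev Xi (R : ℕ) : Type := Fin (R + 1) × Bool × Bool

/-- Decoder transition. -/
def s2 (sn : Bool) (ξ : Xi R) : Bool → Xi R
  | false => (⟨min (ξ.1.val + 1) R, by omega⟩, ξ.2)
  | true => (0, if ξ.1.val = 0 then (false, if ξ.2.1 && ξ.2.2 && sn then false else ξ.2.2)
      else if ξ.1.val = R then (true, ξ.2.2) else ξ.2)

/-- Decoder output. -/
def o2 (sn : Bool) (ξ : Xi R) : Bool → List (Ev g)
  | false => []
  | true => if ξ.1.val = 0 then (if ξ.2.1 && ξ.2.2 && sn then [.check] else [])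
      else if ξ.1.val = R then [.start]
      else if h : ξ.1.val - 1 < g ∧ ξ.2.1 then [.lt ⟨ξ.1.val - 1, h.1⟩] else []

/-- Decoder output on a bit string. -/
def ev2 : Xi R → List Bool → List (Ev g)
  | _, [] => []
  | ξ, b :: l => o2 g R true ξ b ++ ev2 (s2 R true ξ b) l

variable {g R}

theorem ev2_append (ξ : Xi R) (l l' : List Bool) :
    ev2 g R ξ (l ++ l') = ev2 g R ξ l ++ ev2 g R (l.foldl (s2 R true) ξ) l' := by
  induction l generalizing ξ with
  | nil => rfl
  | cons b l ih => simp [ev2, ih]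

theorem ev2_zeros (j : ℕ) (ξ : Xi R) : ev2 g R ξ (List.replicate j false) = [] ∧
    (List.replicate j false).foldl (s2 R true) ξ = (⟨min (ξ.1.val + j) R, by omega⟩, ξ.2) := by
  induction j generalizing ξ with
  | zero => exact ⟨rfl, Prod.ext (Fin.ext (by have := ξ.1.2; simp; omega)) rfl⟩
  | succ j ih =>
    refine ⟨(ih _).1, ?_⟩
    rw [List.replicate_succ, List.foldl_cons, (ih _).2]
    exact Prod.ext (Fin.ext (by simp [s2]; omega)) rfl

/-- The code of a word. -/
def codeBits (v : List (Fin g)) : List Bool :=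
  v.flatMap fun γ => List.replicate (γ.val + 1) false ++ [true]

theorem ev2_code (hR : g < R) (v : List (Fin g)) (f : Bool) :
    ev2 g R (0, true, f) (codeBits v) = v.map .lt ∧
      (codeBits v).foldl (s2 R true) (0, true, f) = (0, true, f) := by
  induction v with
  | nil => exact ⟨rfl, rfl⟩
  | cons γ v ih =>
    have h1 : min (γ.val + 1) R = γ.val + 1 := by omega
    have h2 : γ.val + 1 ≠ R := by omega
    have e : (List.replicate (γ.val + 1) false ++ [true]).foldl (s2 R true) (0, true, f) =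
        (0, true, f) := by
      rw [List.foldl_append, (ev2_zeros (g := g) _ _).2]
      simp [s2, h1, h2]
    rw [codeBits, List.flatMap_cons, ← codeBits, ev2_append, e, List.foldl_append, e, ih.1, ih.2,
      ev2_append, (ev2_zeros _ _).1, (ev2_zeros (g := g) _ _).2]
    simp [ev2, o2, h1, h2]

theorem ev2_full (hR : g < R) (v : List (Fin g)) (ξ : Xi R) :
    ev2 g R ξ (List.replicate R false ++ true :: (codeBits v ++ [true])) =
      .start :: (v.map .lt ++ if ξ.2.2 then [.check] else []) ∧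
    (List.replicate R false ++ true :: (codeBits v ++ [true])).foldl (s2 R true) ξ =
      (0, false, false) := by
  have h1 : min (ξ.1.val + R) R = R := by omega
  have h2 : R ≠ 0 := by omega
  have e : s2 R true (⟨min (ξ.1.val + R) R, by omega⟩, ξ.2) true = (0, true, ξ.2.2) := by
    simp [s2, h2]
  rw [ev2_append, (ev2_zeros _ _).1, List.foldl_append, (ev2_zeros (g := g) _ _).2, ev2,
    List.foldl_cons, e, ev2_append, List.foldl_append, (ev2_code hR v _).1, (ev2_code hR v _).2]
  cases ξ.2.2 <;> simp [ev2, o2, s2, h2]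

end layer2

section bits

variable (a0 a1 : Fin k) (Ψ : List (Fin k) → Prop)

open Classical in
/-- The bit emitted at a letter. -/
noncomputable def bitOf (Φ : List (Fin k) → Prop) (a : Fin k) : Option Bool :=
  if Φ = Ψ then (if a = a0 then some false else if a = a1 then some true else none) else none

/-- The bits emitted along a word. -/
noncomputable def bitsF : (List (Fin k) → Prop) → List (Fin k) → List Bool
  | _, [] => []
  | Φ, a :: w => (bitOf a0 a1 Ψ Φ a).toList ++ bitsF (fun y => Φ (a :: y)) w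

theorem exists_return (t : List (Fin k)) : ∀ Φ : List (Fin k) → Prop, (fun y => Φ (t ++ y)) = Ψ →
    ∃ t' : List (Fin k), (fun y => Φ (t' ++ y)) = Ψ ∧
      ∀ r, bitsF a0 a1 Ψ Φ (t' ++ r) = bitsF a0 a1 Ψ Ψ r := by
  induction t with
  | nil => exact fun Φ h => ⟨[], h, fun r => by rw [← h]; rfl⟩
  | cons a t ih =>
    intro Φ h
    by_cases h0 : Φ = Ψ
    · exact ⟨[], h0, fun r => by rw [h0]; rfl⟩
    · obtain ⟨t', h1, h2⟩ := ih (fun y => Φ (a :: y)) h
      exact ⟨a :: t', h1, fun r => by simp [bitsF, bitOf, h0, h2]⟩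

theorem exists_codeword {δ : P → Fin k → P} {p : P} (hne : a0 ≠ a1) (h0 : Rd δ p [a0])
    (h1 : Rd δ p [a1]) (l : List Bool) :
    ∃ c : List (Fin k), (fun y => Rd δ p (c ++ y)) = Rd δ p ∧ bitsF a0 a1 (Rd δ p) (Rd δ p) c = l := by
  have one : ∀ b : Bool, ∃ e : List (Fin k), (fun y => Rd δ p (e ++ y)) = Rd δ p ∧
      ∀ r, bitsF a0 a1 (Rd δ p) (Rd δ p) (e ++ r) = b :: bitsF a0 a1 (Rd δ p) (Rd δ p) r := by
    have key : ∀ a, Rd δ p [a] → ∃ t : List (Fin k), (fun y => Rd δ p (a :: t ++ y)) = Rd δ p ∧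
        ∀ r, bitsF a0 a1 (Rd δ p) (Rd δ p) (a :: t ++ r) =
          (bitOf a0 a1 (Rd δ p) (Rd δ p) a).toList ++ bitsF a0 a1 (Rd δ p) (Rd δ p) r := by
      rintro a ⟨t, ht⟩
      obtain ⟨t', h2, h3⟩ := exists_return a0 a1 (Rd δ p) t (fun y => Rd δ p (a :: y))
        (funext fun y => propext (rd_loop_append (u := a :: t) ht))
      exact ⟨t', h2, fun r => by rw [List.cons_append, bitsF, h3]⟩
    intro b
    cases b
    · obtain ⟨t, h2, h3⟩ := key a0 h0
      exact ⟨_, h2, fun r => by rw [h3]; simp [bitOf]⟩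
    · obtain ⟨t, h2, h3⟩ := key a1 h1
      exact ⟨_, h2, fun r => by rw [h3]; simp [bitOf, hne.symm]⟩
  induction l with
  | nil => exact ⟨[], rfl, rfl⟩
  | cons b l ih =>
    obtain ⟨c, h2, h3⟩ := ih
    obtain ⟨e, h4, h5⟩ := one b
    refine ⟨e ++ c, funext fun y => ?_, by rw [h5, h3]⟩
    rw [List.append_assoc, congrFun h4, congrFun h2]

end bits

variable (δ : P → Fin k → P) (U : P → Prop) (p : P) (a0 a1 : Fin k) (g R : ℕ)

open Classical in
/-- Transition of the tracker. -/
noncomputable def stepA (τ : Set P × Xi R) (a : Fin k) : Set P × Xi R :=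
  (t1 δ U p τ.1 a, if Fol δ p τ.1 [a] then (bitOf a0 a1 (Rd δ p) (Fol δ p τ.1) a).elim τ.2
    (s2 R (decide (Seen δ U p (t1 δ U p τ.1 a))) τ.2) else (0, false, true))

open Classical in
/-- Output of the tracker. -/
noncomputable def outA (τ : Set P × Xi R) (a : Fin k) : List (Ev g) :=
  if Fol δ p τ.1 [a] then (bitOf a0 a1 (Rd δ p) (Fol δ p τ.1) a).elim []
    (o2 g R (decide (Seen δ U p (t1 δ U p τ.1 a))) τ.2)
  else if Seen δ U p τ.1 then [.check] else []

variable {δ U p a0 a1 g R}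

theorem foldl_stepA (w : List (Fin k)) (τ : Set P × Xi R) :
    (w.foldl (stepA δ U p a0 a1 R) τ).1 = w.foldl (t1 δ U p) τ.1 := by
  induction w generalizing τ with
  | nil => rfl
  | cons a w ih => exact ih _

theorem eventsA_run {m : List (Fin k)} (M : Magic δ U p m) (w : List (Fin k)) :
    ∀ τ : Set P × Xi R, Fol δ p τ.1 w → Seen δ U p τ.1 →
      events (stepA δ U p a0 a1 R) (outA δ U p a0 a1 g R) τ w =
        ev2 g R τ.2 (bitsF a0 a1 (Rd δ p) (Fol δ p τ.1) w) ∧
      (w.foldl (stepA δ U p a0 a1 R) τ).2 =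
        (bitsF a0 a1 (Rd δ p) (Fol δ p τ.1) w).foldl (s2 R true) τ.2 := by
  induction w with
  | nil => exact fun _ _ _ => ⟨rfl, rfl⟩
  | cons a w ih =>
    intro τ h hs
    have h1 : Fol δ p τ.1 [a] := Fol.of_append (u := [a]) h
    have h2 : Seen δ U p (t1 δ U p τ.1 a) := M.seen_foldl h1 hs
    have h3 : Fol δ p (stepA δ U p a0 a1 R τ a).1 = fun y => Fol δ p τ.1 (a :: y) :=
      funext fun y => propext (M.fol_foldl h1 y)
    obtain ⟨b1, b2⟩ := ih (stepA δ U p a0 a1 R τ a) (by rw [h3]; exact h) h2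
    rw [events, List.foldl_cons, b1, b2, h3, bitsF, ev2_append, List.foldl_append]
    simp only [stepA, outA, if_pos h1, h2, decide_true]
    rcases bitOf a0 a1 (Rd δ p) (Fol δ p τ.1) a with _ | b <;> simp [ev2]

theorem eventsA_junk {m : List (Fin k)} (M : Magic δ U p m) (z : List (Fin k)) :
    ∀ τ : Set P × Xi R, τ.2.2.1 = false → τ.2.1.val + z.length < R →
      (τ.2.2.2 = true → (z.foldl (stepA δ U p a0 a1 R) τ).2.2.2 = true) ∧
      (Fol δ p τ.1 z → events (stepA δ U p a0 a1 R) (outA δ U p a0 a1 g R) τ z = []) := by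
  induction z with
  | nil => exact fun _ _ _ => ⟨id, fun _ => rfl⟩
  | cons a z ih =>
    intro τ hr h
    rw [List.length_cons] at h
    have hR : τ.2.1.val ≠ R := by omega
    have key : (stepA δ U p a0 a1 R τ a).2.2.1 = false ∧
        (stepA δ U p a0 a1 R τ a).2.1.val ≤ τ.2.1.val + 1 ∧
        (τ.2.2.2 = true → (stepA δ U p a0 a1 R τ a).2.2.2 = true) ∧
        (Fol δ p τ.1 [a] → outA δ U p a0 a1 g R τ a = []) := by
      simp only [stepA, outA]
      by_cases h1 : Fol δ p τ.1 [a]
      · simp only [if_pos h1]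
        rcases bitOf a0 a1 (Rd δ p) (Fol δ p τ.1) a with _ | _ | _
        · simp [hr]
        · simp [hr, s2, o2]
        · by_cases h0 : τ.2.1.val = 0 <;> simp [hr, s2, o2, hR, h0]
      · simp [h1]
    obtain ⟨b1, b2⟩ := ih (stepA δ U p a0 a1 R τ a) key.1 (by omega)
    refine ⟨fun h => b1 (key.2.2.1 h), fun hf => ?_⟩
    have h1 : Fol δ p τ.1 [a] := Fol.of_append (u := [a]) hf
    rw [events, key.2.2.2 h1, b2 ((M.fol_foldl h1 z).2 hf)]
    rfl

theorem eventsA_fail {m : List (Fin k)} (M : Magic δ U p m) (z : List (Fin k)) :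
    ∀ τ : Set P × Xi R, z.length ≤ R → z ≠ [] → ¬Fol δ p τ.1 z →
      (z.foldl (stepA δ U p a0 a1 R) τ).2.2.2 = true := by
  induction z with
  | nil => exact fun _ _ h => absurd rfl h
  | cons a z ih =>
    intro τ h _ hf
    rw [List.length_cons] at h
    by_cases h1 : Fol δ p τ.1 [a]
    · exact ih (stepA δ U p a0 a1 R τ a) (by omega) (by rintro rfl; exact hf h1)
        fun h => hf ((M.fol_foldl h1 z).1 h)
    · have e : (stepA δ U p a0 a1 R τ a).2 = (0, false, true) := by simp [stepA, h1]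
      exact (eventsA_junk (g := 0) M z (stepA δ U p a0 a1 R τ a) (by rw [e])
        (by rw [e]; simp; omega)).1 (by rw [e])

theorem hasTracker_branch [Finite P] {p0 : P} {F : Set P} {m : List (Fin k)}
    (M : Magic δ (Useful δ p0 F) p m) (hne : a0 ≠ a1) (h0 : Rd δ p [a0]) (h1 : Rd δ p [a1])
    (hK : ∀ w : List (Fin k), w.foldl δ p0 ∈ F → ¬CC δ p w) (g : ℕ) : HasTracker g δ p0 F := by
  classical
  obtain ⟨⟨x, hx⟩, y, hy⟩ := M.hp
  have hb : ∀ q, ∃ t : List (Fin k), Reach δ q p → t.foldl δ q = p := fun q => by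
    by_cases h : Reach δ q p
    · exact ⟨_, fun _ => h.choose_spec⟩
    · exact ⟨[], fun h' => absurd h' h⟩
  choose back hback using hb
  obtain ⟨B, hB⟩ := Finite.exists_le fun q => (back q).length
  set z := x ++ m ++ (m ++ m) with hz
  set R := z.length + B + (m ++ y).length + g + 1 with hR
  refine ⟨Set P × Xi R, inferInstance, stepA δ (Useful δ p0 F) p a0 a1 R,
    outA δ (Useful δ p0 F) p a0 a1 g R, 2 * rho δ p0 + 1,
    (img δ (Useful δ p0 F) Set.univ [], 0, false, true), fun w hw => ?_, fun v => ?_⟩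
  · refine count_check_le M Prod.fst (fun τ : Set P × Xi R => τ.2.2.2.toNat) (fun _ _ => rfl) (fun τ a h => ?_)
      (fun τ a h => ?_) w [] p0 _ (.refl _) hw rfl (by simp)
    · simp only [outA, stepA, if_neg h]
      split_ifs with h' <;> simp [h']
    · simp only [outA, stepA, if_pos h]
      rcases bitOf a0 a1 (Rd δ p) (Fol δ p τ.1) a with _ | _ | _
      · simp; tauto
      · simp [s2, o2]; tauto
      · simp only [s2, o2, Option.elim_some]
        split_ifs with c1 c2 <;> simp_all <;> tauto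
  · obtain ⟨c, hc1, hc2⟩ := exists_codeword a0 a1 hne h0 h1
      (List.replicate R false ++ true :: (codeBits v ++ [true]))
    have hc : Rd δ p c := by simpa using (congrFun hc1 []).mpr (Rd.nil p)
    refine ⟨z ++ (c ++ (back (c.foldl δ p) ++ (m ++ y))), by
      simpa [hz, hx, M.loop, hback _ hc] using hy, fun τ => ?_⟩
    have hlock : Lock δ (Useful δ p0 F) p (z.foldl (stepA δ (Useful δ p0 F) p a0 a1 R) τ).1 := by
      rw [foldl_stepA, hz, List.foldl_append]; exact M.lock_mm _
    have hf : (z.foldl (stepA δ (Useful δ p0 F) p a0 a1 R) τ).2.2.2 = true ∨ ¬CC δ p (m ++ y) := by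
      refine (M.break_or (hK (x ++ m ++ y) (by simpa [hx, M.loop] using hy))).imp_left fun hl => ?_
      exact eventsA_fail M z τ (by omega) (by simp [hz, M.ne]) fun h => hl (Fol.of_append h).cc
    rw [events_append, events_append _ _ _ c]
    generalize z.foldl (stepA δ (Useful δ p0 F) p a0 a1 R) τ = τ1 at hlock hf
    have hfc : Fol δ p τ1.1 c := by rw [hlock.2]; exact hc
    obtain ⟨b1, b2⟩ := eventsA_run (a0 := a0) (a1 := a1) (g := g) M c τ1 hfc hlock.1
    rw [hlock.2, hc2, (ev2_full (by omega) v _).1] at b1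
    rw [hlock.2, hc2, (ev2_full (by omega) v _).2] at b2
    rw [b1]
    by_cases hf1 : τ1.2.2.2 = true
    · rw [if_pos hf1]
      exact ⟨_, _, List.append_assoc _ _ _⟩
    · have hr := hf.resolve_left hf1
      obtain ⟨z1, a, z2, e, d1, d2⟩ := exists_split (q := p) (z := back (c.foldl δ p) ++ (m ++ y))
        fun h => hr (h.cc.of_inf (List.suffix_append _ _).isInfix)
      have hl1 : z1.length < (back (c.foldl δ p) ++ (m ++ y)).length := by rw [e]; simp
      have hfol : ∀ y', Fol δ p (c.foldl (stepA δ (Useful δ p0 F) p a0 a1 R) τ1).1 y' ↔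
          Rd δ p y' := fun y' => by
        rw [foldl_stepA, M.fol_foldl hfc, hlock.2, congrFun hc1]
      have hseen : Seen δ (Useful δ p0 F) p (c.foldl (stepA δ (Useful δ p0 F) p a0 a1 R) τ1).1 := by
        rw [foldl_stepA]; exact M.seen_foldl hfc hlock.1
      generalize c.foldl (stepA δ (Useful δ p0 F) p a0 a1 R) τ1 = τ2 at b2 hfol hseen
      have := hB (c.foldl δ p)
      rw [if_neg hf1, e, events_append _ _ _ z1, (eventsA_junk M z1 τ2 (by rw [b2]) (by
        rw [b2]; rw [List.length_append] at hl1; simp only [Fin.val_zero]; omega)).2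
        ((hfol _).2 d1), events]
      have hout : outA δ (Useful δ p0 F) p a0 a1 g R
          (z1.foldl (stepA δ (Useful δ p0 F) p a0 a1 R) τ2) a = [.check] := by
        rw [outA, foldl_stepA, if_neg, if_pos (M.seen_foldl ((hfol _).2 d1) hseen)]
        rw [M.fol_foldl ((hfol _).2 d1), hfol]
        exact d2
      rw [hout]
      exact ⟨_, _, by simp only [List.append_assoc, List.cons_append, List.nil_append,
        List.append_nil]; rfl⟩

end Pool.Agent.Work.MP_dbfdd9_lc
end

-- merged part: Pool.Agent.Work.MP_dbfdd9_lc.Sparse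
section
/-!
The three cases of the classification.
-/

namespace Pool.Agent.Work.MP_dbfdd9_lc

variable {k : ℕ} {P : Type} [Finite P] {δ : P → Fin k → P} {p0 : P} {F : Set P}

/-- No useful state has two different letters staying inside its component. -/
def NonBr (δ : P → Fin k → P) (p0 : P) (F : Set P) : Prop :=
  ∀ q, Useful δ p0 F q → ∀ a b, Rd δ q [a] → Rd δ q [b] → a = b

theorem hasTracker_of_not_nonBr
    (hK : ∀ p, Useful δ p0 F p → ∀ w : List (Fin k), w.foldl δ p0 ∈ F → ¬CC δ p w)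
    (h : ¬NonBr δ p0 F) (g : ℕ) : HasTracker g δ p0 F := by
  have hU : ∀ p q, Useful δ p0 F p → Sim δ p q → Useful δ p0 F q := fun _ _ => Useful.of_sim
  unfold NonBr at h
  push Not at h
  obtain ⟨r, hr, a, b, ha, hb, hab⟩ := h
  obtain ⟨q, ⟨h1, h2⟩, h3⟩ := (Set.toFinite {q | Useful δ p0 F q ∧ ∀ w, CC δ r w → CC δ q w}).exists_maximalFor
    (fun q => {w | CC δ q w}) _ ⟨r, hr, fun _ => id⟩
  obtain ⟨t, ht⟩ := id ha
  obtain ⟨m0, -, c1, c2⟩ := exists_magic hU hr (u := a :: t) ht (by simp)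
  obtain ⟨q', d1, d2⟩ := h2 _ (rd_loop c1).cc
  have hs : Sim δ q (m0.foldl δ q') := d1.trans d2.sim
  have c3 := (c2 _ ⟨q', trivial, h1.of_sim d1, d2, rfl⟩).1
  generalize m0.foldl δ q' = p at hs c3
  obtain ⟨t', ht'⟩ := c3 _ ha
  obtain ⟨m, e1, e2, e3⟩ := exists_magic hU (h1.of_sim hs) (u := a :: t') ht' (by simp)
  refine hasTracker_branch ⟨hU, h1.of_sim hs, e1, e2, e3, fun q2 f1 f2 w hw => ?_⟩ hab (c3 _ ha)
    (c3 _ hb) (hK p (h1.of_sim hs)) g
  exact CC.of_sim (h3 (j := q2) ⟨f1, fun w hw => f2 w ((h2 w hw).of_sim hs)⟩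
    (fun w hw => f2 w (CC.of_sim hw hs)) hw) hs

omit [Finite P] in
theorem NonBr.is_pre (h : NonBr δ p0 F) {w : List (Fin k)} : ∀ {q : P} {w' : List (Fin k)},
    Useful δ p0 F q → Rd δ q w → Rd δ q w' → w.length ≤ w'.length → w <+: w' := by
  induction w with
  | nil => exact fun _ _ _ _ => List.nil_prefix
  | cons a w ih =>
    intro q w' hq h1 h2 hl
    rcases w' with _ | ⟨b, w'⟩
    · simp at hl
    · have h3 := rd_cons.1 h1
      have h4 := rd_cons.1 h2
      obtain rfl := h q hq a b h3.1 h4.1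
      exact List.cons_prefix_cons.2 ⟨rfl, ih (hq.of_sim h3.1.sim) h3.2 h4.2 (by simpa using hl)⟩

omit [Finite P] in
theorem NonBr.prefix_pw (h : NonBr δ p0 F) {q : P} (hq : Useful δ p0 F q) {v w : List (Fin k)}
    (hv : v.foldl δ q = q) (hv0 : v ≠ []) (hw : Rd δ q w) : w <+: pw v w.length :=
  h.is_pre hq hw (rd_loop (foldl_pw hv _)) (by
    rw [length_pw]; exact Nat.le_mul_of_pos_right _ (List.length_pos_of_ne_nil hv0))

omit [Finite P] in
theorem NonBr.comm (h : NonBr δ p0 F) {q : P} (hq : Useful δ p0 F q) {v z : List (Fin k)}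
    (hv : v.foldl δ q = q) (hz : Rd δ q (z ++ v)) (K : ℕ) : z ++ pw v K = pw v K ++ z := by
  have e : z ++ v = v ++ z := (h.is_pre hq hz ((rd_loop_append hv).2 (rd_append.1 hz).1)
    (by simp; omega)).eq_of_length (by simp; omega)
  induction K with
  | zero => simp
  | succ K ih => rw [pw_succ, ← List.append_assoc, e, List.append_assoc, ih, List.append_assoc]

omit [Finite P] in
theorem NonBr.left (h : NonBr δ p0 F) {q : P} (hq : Useful δ p0 F q) {v x : List (Fin k)}
    (hv : v.foldl δ q = q) (hv0 : v ≠ []) (hx : CC δ q (x ++ v)) : ∃ K, x <:+ pw v K := by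
  obtain ⟨r, h1, h2⟩ := hx
  obtain ⟨t, rfl⟩ := h1.1
  have h3 : Rd δ q (t ++ x ++ v) := by rw [List.append_assoc]; exact rd_append.2 ⟨h1.2, h2⟩
  obtain ⟨z', hz⟩ := h.prefix_pw hq hv hv0 (rd_append.1 h3).1
  have h4 := h.comm hq hv h3 (t ++ x).length
  rw [← hz, List.append_assoc (t ++ x) z', List.append_cancel_left_eq] at h4
  exact ⟨_, z' ++ t, by rw [← hz, h4, List.append_assoc]⟩

omit [Finite P] in
theorem NonBr.right (h : NonBr δ p0 F) {q : P} (hq : Useful δ p0 F q) {v y : List (Fin k)}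
    (hv : v.foldl δ q = q) (hv0 : v ≠ []) (hy : CC δ q (v ++ y)) : ∃ K, y <+: pw v K := by
  obtain ⟨r, h1, h2⟩ := hy
  obtain ⟨t, rfl⟩ := h1.1
  have h3 : Rd δ q (t ++ (v ++ y)) := rd_append.2 ⟨h1.2, h2⟩
  obtain ⟨z', hz⟩ := h.prefix_pw hq hv hv0 h3
  have h4 := h.comm hq hv (z := t) (by rw [← List.append_assoc] at h3; exact (rd_append.1 h3).1)
    (t ++ (v ++ y)).length
  generalize (t ++ (v ++ y)).length = K at hz h4
  have h5 : pw v K = v ++ (y ++ (z' ++ t)) := by
    have := h4
    rw [← hz, List.append_assoc t (v ++ y), List.append_assoc t, List.append_cancel_left_eq] at this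
    rw [← hz, List.append_assoc t, this]
    simp
  have h6 : v ++ pw v K = pw v K ++ v := by rw [← pw_succ, pw_succ']
  rw [h5, List.append_assoc v, List.append_cancel_left_eq, ← h5] at h6
  exact ⟨K, z' ++ t ++ v, by rw [h6]; simp⟩

theorem hasTracker_of_breaks (h : NonBr δ p0 F) {p : P} (hp : Useful δ p0 F p)
    {u x s1 s2 y : List (Fin k)} (hu : u.foldl δ p = p) (hu0 : u ≠ []) (hx : x.foldl δ p0 = p)
    (hs1 : s1.foldl δ p = p) (hs2 : s2.foldl δ p = p) (hy : y.foldl δ p ∈ F)
    (hl : ¬CC δ p (x ++ s1)) (hr : ¬CC δ p (s2 ++ y)) : HasTracker 1 δ p0 F := by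
  have hU : ∀ p q, Useful δ p0 F p → Sim δ p q → Useful δ p0 F q := fun _ _ => Useful.of_sim
  obtain ⟨m, e1, e2, e3⟩ := exists_magic hU hp hu hu0
  refine hasTracker_one ⟨hU, hp, e1, e2, e3, fun q f1 f2 w ⟨r, g1, g2⟩ => ?_⟩ hx hs1 hs2 hy hl hr
  obtain ⟨q', d1, d2⟩ := f2 _ (rd_loop e2).cc
  have hs : Sim δ q (m.foldl δ q') := d1.trans d2.sim
  have c3 := (e3 _ ⟨q', trivial, f1.of_sim d1, d2, rfl⟩).1
  generalize m.foldl δ q' = q1 at hs c3
  obtain ⟨t, rfl⟩ := (hs.symm.trans g1).1
  have c4 := rd_loop (foldl_pw e2 (t ++ w).length)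
  have := h.is_pre (f1.of_sim hs) (rd_append.2 ⟨(hs.symm.trans g1).2, g2⟩) (c3 _ c4) (by
    rw [length_pw]; exact Nat.le_mul_of_pos_right _ (List.length_pos_of_ne_nil e1))
  exact c4.cc.of_inf ((List.suffix_append t w).isInfix.trans this.isInfix)

theorem exists_loops (δ : P → Fin k → P) : ∃ (lp : P → List (Fin k)) (c : ℕ),
    (∀ q, (lp q).length ≤ c) ∧ (∀ q, (lp q).foldl δ q = q) ∧
    ∀ q a, Rd δ q [a] → lp q ≠ [] := by
  have : ∀ q, ∃ v : List (Fin k), v.foldl δ q = q ∧ ∀ a, Rd δ q [a] → v ≠ [] := fun q => by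
    by_cases h : ∃ a, Rd δ q [a]
    · obtain ⟨a, t, ht⟩ := h
      exact ⟨a :: t, ht, by simp⟩
    · exact ⟨[], rfl, fun a ha => absurd ⟨a, ha⟩ h⟩
  choose lp h1 h2 using this
  obtain ⟨c, hc⟩ := Finite.exists_le fun q => (lp q).length
  exact ⟨lp, c, hc, h1, h2⟩

theorem exists_last_split {σ : Type} (Q : List σ → Prop) (w : List σ) :
    ∃ x r, w = x ++ r ∧ (x = [] ∨ Q x) ∧ ∀ r', r' ≠ [] → r' <+: r → ¬Q (x ++ r') := by
  induction w using List.reverseRecOn with
  | nil => exact ⟨[], [], rfl, .inl rfl, by simp +contextual⟩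
  | append_singleton w a ih =>
    by_cases h : Q (w ++ [a])
    · exact ⟨_, [], by simp, .inr h, by simp +contextual⟩
    · obtain ⟨x, r, rfl, h1, h2⟩ := ih
      refine ⟨x, r ++ [a], by simp, h1, fun r' h3 h4 => ?_⟩
      rcases List.prefix_concat_iff.1 h4 with rfl | h4
      · simpa using h
      · exact h2 r' h3 h4

/-- The tractable case: every accepted word is a factor of a pumped template. -/
theorem exists_templates (h : NonBr δ p0 F)
    (hC : ∀ p, Useful δ p0 F p → ∀ u : List (Fin k), u ≠ [] → u.foldl δ p = p →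
      (∀ x s : List (Fin k), x.foldl δ p0 = p → s.foldl δ p = p → CC δ p (x ++ s)) ∨
      (∀ s y : List (Fin k), s.foldl δ p = p → y.foldl δ p ∈ F → CC δ p (s ++ y))) :
    ∃ c, ∀ w : List (Fin k), w.foldl δ p0 ∈ F → ∃ u mid v : List (Fin k),
      u.length ≤ c ∧ mid.length ≤ c ∧ v.length ≤ c ∧
      (∀ N, ∃ x y : List (Fin k), (x ++ (pw u N ++ mid ++ pw v N) ++ y).foldl δ p0 ∈ F) ∧
      ∃ K, w <:+: pw u K ++ mid ++ pw v K := by
  obtain ⟨lp, c, l1, l2, l3⟩ := exists_loops δ
  let LT : P → Prop := fun p => lp p ≠ [] ∧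
    ∀ x s : List (Fin k), x.foldl δ p0 = p → s.foldl δ p = p → CC δ p (x ++ s)
  have R0 : ∀ (r : List (Fin k)) q, Reach δ p0 q → r.foldl δ q ∈ F →
      (∀ r', r' <+: r → ¬LT (r'.foldl δ q)) → ∃ mid y K, r = mid ++ y ∧ mid.length ≤ rho δ q ∧
        y <+: pw (lp (mid.foldl δ q)) K := by
    intro r
    induction r with
    | nil => exact fun q _ _ _ => ⟨[], [], 0, rfl, Nat.zero_le _, List.nil_prefix⟩
    | cons a r ih =>
      intro q h1 h2 h3
      have hq : Useful δ p0 F q := ⟨h1, _, h2⟩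
      by_cases hl : lp q = []
      · obtain ⟨mid, y, K, rfl, h4, h5⟩ := ih (δ q a) (h1.trans (reach_foldl q [a])) h2
          fun r' hr' => h3 (a :: r') (List.cons_prefix_cons.2 ⟨rfl, hr'⟩)
        exact ⟨a :: mid, y, K, rfl, h4.trans_lt (rho_lt (w := [a]) fun h => l3 q a h hl), h5⟩
      · obtain ⟨K, hK⟩ := h.right hq (l2 q) hl (((hC q hq _ hl (l2 q)).resolve_left
          fun h' => h3 [] List.nil_prefix ⟨hl, h'⟩) _ _ (l2 q) h2)
        exact ⟨[], _, K, rfl, Nat.zero_le _, hK⟩
  refine ⟨c + rho δ p0 + 1, fun w hw => ?_⟩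
  obtain ⟨x, r, rfl, h1, h2⟩ := exists_last_split (fun x => LT (x.foldl δ p0)) w
  rw [List.foldl_append] at hw
  obtain ⟨K1, z1, hK1⟩ : ∃ K, x <:+ pw (lp (x.foldl δ p0)) K := by
    rcases h1 with rfl | h1
    · exact ⟨0, List.nil_suffix⟩
    · exact h.left ⟨reach_foldl _ _, _, hw⟩ (l2 _) h1.1 (h1.2 _ _ rfl (l2 _))
  obtain ⟨mid, y, K2, rfl, h3, z2, hK2⟩ : ∃ mid y K, r = mid ++ y ∧ mid.length ≤ rho δ p0 + 1 ∧
      y <+: pw (lp (mid.foldl δ (x.foldl δ p0))) K := by
    rcases r with _ | ⟨a, r⟩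
    · exact ⟨[], [], 0, rfl, Nat.zero_le _, List.nil_prefix⟩
    · obtain ⟨mid, y, K, rfl, h4, h5⟩ := R0 r (δ (x.foldl δ p0) a)
        ((reach_foldl _ _).trans (reach_foldl _ [a])) hw fun r' hr' => by
          simpa using h2 (a :: r') (by simp) (List.cons_prefix_cons.2 ⟨rfl, hr'⟩)
      refine ⟨a :: mid, y, K, rfl, Nat.succ_le_succ (h4.trans ?_), h5⟩
      simpa using rho_le (δ := δ) p0 (x ++ [a])
  refine ⟨lp (x.foldl δ p0), mid, lp (mid.foldl δ (x.foldl δ p0)), (l1 _).trans (by omega),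
    by omega, (l1 _).trans (by omega), fun N => ⟨x, y, ?_⟩, K2 + K1, ?_⟩
  · simpa [foldl_pw (l2 _)] using hw
  · rw [pw_add, pw_add, ← hK1, ← hK2]
    exact ⟨pw (lp (x.foldl δ p0)) K2 ++ z1, z2 ++ pw (lp (mid.foldl δ (x.foldl δ p0))) K1,
      by simp⟩

theorem eq_pw_of_prefix {σ : Type} {v : List σ} {N : ℕ} : ∀ {z : List σ}, z <+: pw v N →
    ∃ e v', z = pw v e ++ v' ∧ v'.length ≤ v.length := by
  induction N with
  | zero => intro z h; exact ⟨0, [], by simpa using h, Nat.zero_le _⟩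
  | succ N ih =>
    intro z h
    rcases List.prefix_or_prefix_of_prefix h (List.prefix_append v (pw v N)) with h' | ⟨z1, rfl⟩
    · exact ⟨0, z, rfl, h'.length_le⟩
    · obtain ⟨e, v', rfl, h2⟩ := ih ((List.prefix_append_right_inj v).1 h)
      exact ⟨e + 1, v', by rw [pw_succ, List.append_assoc], h2⟩

/-- In the sparse case accepted words are short products of powers. -/
theorem exists_blocks (h : NonBr δ p0 F) : ∃ c, ∀ w : List (Fin k), w.foldl δ p0 ∈ F →
    ∃ bl : List (List (Fin k) × ℕ × List (Fin k)), bl.length ≤ c ∧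
      (∀ b ∈ bl, b.1.length ≤ c ∧ b.2.2.length ≤ c) ∧
      w = bl.flatMap fun b => pw b.1 b.2.1 ++ b.2.2 := by
  obtain ⟨lp, c, l1, l2, l3⟩ := exists_loops δ
  have one : ∀ q z, Useful δ p0 F q → Rd δ q z → ∃ e v', z = pw (lp q) e ++ v' ∧ v'.length ≤ c := by
    intro q z hq hz
    rcases z with _ | ⟨a, z⟩
    · exact ⟨0, [], rfl, Nat.zero_le _⟩
    · obtain ⟨e, v', h1, h2⟩ := eq_pw_of_prefix
        (h.prefix_pw hq (l2 q) (l3 q a (rd_cons.1 hz).1) hz)
      exact ⟨e, v', h1, h2.trans (l1 q)⟩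
  have key : ∀ n q (w : List (Fin k)), rho δ q < n → Reach δ p0 q → w.foldl δ q ∈ F →
      ∃ bl : List (List (Fin k) × ℕ × List (Fin k)), bl.length ≤ n ∧
        (∀ b ∈ bl, b.1.length ≤ c + 1 ∧ b.2.2.length ≤ c + 1) ∧
        w = bl.flatMap fun b => pw b.1 b.2.1 ++ b.2.2 := by
    intro n
    induction n with
    | zero => intro _ _ h; omega
    | succ n ih =>
      intro q w h1 h2 h3
      have := l1 q
      by_cases hw : Rd δ q w
      · obtain ⟨e, v', rfl, h4⟩ := one q w ⟨h2, _, h3⟩ hw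
        exact ⟨[(lp q, e, v')], by simp, by simp; omega, by simp⟩
      · obtain ⟨z1, a, z2, rfl, h4, h5⟩ := exists_split hw
        obtain ⟨bl, h6, h7, h8⟩ := ih ((z1 ++ [a]).foldl δ q) z2
          (lt_of_lt_of_le (rho_lt h5) (by omega)) (h2.trans (reach_foldl _ _)) (by simpa using h3)
        obtain ⟨e, v', rfl, h9⟩ := one q z1 ⟨h2, _, h3⟩ h4
        refine ⟨(lp q, e, v' ++ [a]) :: bl, by simpa using h6, fun b hb => ?_, by simp [← h8]⟩
        rcases List.mem_cons.1 hb with rfl | hb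
        · simp; omega
        · exact h7 b hb
  refine ⟨c + rho δ p0 + 1, fun w hw => ?_⟩
  obtain ⟨bl, h1, h2, h3⟩ := key _ p0 w (Nat.lt_succ_self _) (.refl _) hw
  exact ⟨bl, by omega, fun b hb => by have := h2 b hb; omega, h3⟩

end Pool.Agent.Work.MP_dbfdd9_lc
end

-- merged part: Pool.Agent.Work.MP_dbfdd9_lc.MemPspace
section
/-!
Constrained synchronization is in `PSPACE`.
-/

namespace Pool.Agent.Work.MP_dbfdd9_lc

open Pool.Agent.Lib.Cx Relation

variable {k : ℕ}

/-- A finite automaton as a constant bit string. -/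
theorem exists_code {P : Type} [Finite P] (δ : P → Fin k → P) :
    ∃ (c : List Bool) (e : P → ℕ), Function.Injective e ∧ (∀ p, e p < nOf c) ∧
      (∀ j < nOf c, ∃ p, e p = j) ∧ Ok k (nOf c) (dec k c) ∧
      ∀ p w, runN (dec k c) (e p) w = e (w.foldl δ p) := by
  obtain ⟨b, ⟨e⟩⟩ := Finite.exists_equiv_fin P
  let f : ℕ → ℕ → ℕ := fun q a =>
    if h : q < b ∧ a < k then (e (δ (e.symm ⟨q, h.1⟩) ⟨a, h.2⟩)).val else 0
  have ok : Ok k b f := fun q hq a ha => by simp [f, hq, ha]
  refine ⟨encN k b f, fun p => (e p).val, fun p q h => e.injective (Fin.ext h), ?_, ?_, ?_, ?_⟩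
  · rw [nOf_encN]; exact fun p => (e p).2
  · rw [nOf_encN]; exact fun j hj => ⟨e.symm ⟨j, hj⟩, by simp⟩
  · rw [nOf_encN]; exact fun q hq a ha => by rw [dec_encN ok q hq a ha]; exact ok q hq a ha
  · intro p w
    rw [ok.run_congr (dec_encN ok) w (e p).2]
    induction w generalizing p with
    | nil => rfl
    | cons a w ih => rw [runN_cons, List.foldl_cons, ← ih]; simp [f]

/-- The disjoint union of two coded automata. -/
def uni (k : ℕ) (c s : List Bool) (j a : ℕ) : ℕ :=
  if j < nOf c then dec k c j a else nOf c + dec k s (j - nOf c) a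

@[fun_prop] theorem ls_uni {α : Type} [Obj α] {c s : α → List Bool} {q a : α → ℕ} (hc : LS c)
    (hs : LS s) (hq : LS q) (ha : LS a) : LS fun x => uni k (c x) (s x) (q x) (a x) := by
  unfold uni; fun_prop

theorem run_uni_left {c : List Bool} (hc : Ok k (nOf c) (dec k c)) (s : List Bool)
    (w : List (Fin k)) : ∀ {j : ℕ}, j < nOf c → runN (uni k c s) j w = runN (dec k c) j w := by
  induction w with
  | nil => exact fun _ => rfl
  | cons a w ih =>
    intro j hj
    rw [runN_cons, runN_cons, uni, if_pos hj, ih (hc _ hj _ a.2)]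

theorem run_uni_right (c s : List Bool) (w : List (Fin k)) :
    ∀ q : ℕ, runN (uni k c s) (nOf c + q) w = nOf c + runN (dec k s) q w := by
  induction w with
  | nil => exact fun _ => rfl
  | cons a w ih =>
    intro q
    rw [runN_cons, runN_cons, uni, if_neg (by omega), Nat.add_sub_cancel_left, ih]

theorem ok_uni {c s : List Bool} (hc : Ok k (nOf c) (dec k c)) (hs : Ok k (nOf s) (dec k s)) :
    Ok k (nOf c + nOf s) (uni k c s) := fun j hj a ha => by
  unfold uni
  split_ifs with h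
  · exact (hc j h a ha).trans_le (Nat.le_add_right _ _)
  · exact Nat.add_lt_add_left (hs _ (by omega) a ha) _

theorem cs_mem_PSPACE {L : Language (Fin k)} (hL : L.IsRegular) : ConstrSync L ∈ PSPACE := by
  classical
  obtain ⟨P, _, D, rfl⟩ := hL
  obtain ⟨c, e, he, hlt, hsurj, hok, hrun⟩ := exists_code D.step
  let F : List ℕ := ((Finset.univ.filter (· ∈ D.accept)).image e).toList
  have hF : ∀ w, w ∈ D.accepts ↔ runN (dec k c) (e D.start) w ∈ F := fun w => by
    simp only [hrun, F, Finset.mem_toList, Finset.mem_image, Finset.mem_filter, Finset.mem_univ,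
      true_and, he.eq_iff, exists_eq_right]
    rfl
  let m : List Bool → ℕ := fun x => nOf c + nOf x
  let img : List Bool → ℕ → List Bool → List Bool := fun x a u =>
    (List.range (m x)).map fun j' => decide (∃ j < m x, u.getD j false = true ∧ uni k c x j a = j')
  let vert : List Bool → List (Fin k) → List Bool := fun x w =>
    (List.range (m x)).map fun j' =>
      decide (∃ j < m x, (j = e D.start ∨ nOf c ≤ j) ∧ runN (uni k c x) j w = j')
  have hV : LS fun x : List Bool => decide (Valid k x) := by fun_prop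
  refine reach_mem_PSPACE m (fun x u v => decide (∃ a < k, v = img x a u))
    (s := fun x => (List.range (m x)).map fun j => decide (j = e D.start ∨ nOf c ≤ j))
    (A := fun x t => decide (Valid k x) && decide ((∃ j < nOf c, t.getD j false = true ∧ j ∈ F) ∧
      0 < nOf x ∧ ∀ q < nOf x, ∀ q' < nOf x,
        t.getD (nOf c + q) false = true → t.getD (nOf c + q') false = true → q = q'))
    (by fun_prop) (by fun_prop) (by fun_prop) (by fun_prop)
    (fun x => Nat.add_pos_left ((Nat.zero_le _).trans_lt (hlt D.start)) _) (fun x => by simp)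
    (fun x u v h => by
      obtain ⟨a, -, rfl⟩ := of_decide_eq_true h
      simp [img]) fun x => ?_
  rw [cs_iff]
  by_cases hx : Valid k x
  swap
  · simp [hx]
  have ok := ok_uni hok hx.2
  have hget : ∀ w j', (vert x w).getD j' false = true ↔
      ∃ j < m x, (j = e D.start ∨ nOf c ≤ j) ∧ runN (uni k c x) j w = j' := fun w j' => by
    simp only [vert, getD_map_range]
    split_ifs with h
    · simp
    · simp only [false_iff]
      rintro ⟨j, hj, -, rfl⟩
      exact h (ok.run_lt w hj)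
  have hstep : ∀ w (a : Fin k), img x a (vert x w) = vert x (w ++ [a]) := fun w a => by
    refine List.map_congr_left fun j' _ => ?_
    simp only [hget, runN_append, runN_cons, runN_nil, decide_eq_decide]
    exact ⟨fun ⟨_, _, ⟨j, hj, h1, h2⟩, h3⟩ => ⟨j, hj, h1, h2 ▸ h3⟩,
      fun ⟨j, hj, h1, h2⟩ => ⟨_, ok.run_lt w hj, ⟨j, hj, h1, rfl⟩, h2⟩⟩
  have h0 : ((List.range (m x)).map fun j => decide (j = e D.start ∨ nOf c ≤ j)) = vert x [] :=
    List.map_congr_left fun j hj => by
      simp only [runN_nil, decide_eq_decide]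
      exact ⟨fun h => ⟨j, List.mem_range.1 hj, h, rfl⟩, fun ⟨_, _, h, e⟩ => e ▸ h⟩
  have hreach : ∀ t, ReflTransGen (fun u v => decide (∃ a < k, v = img x a u) = true)
      (vert x []) t ↔ ∃ w, t = vert x w := fun t => by
    constructor
    · intro h
      induction h with
      | refl => exact ⟨[], rfl⟩
      | tail _ h ih =>
        obtain ⟨w, rfl⟩ := ih
        obtain ⟨a, ha, rfl⟩ := of_decide_eq_true h
        exact ⟨w ++ [⟨a, ha⟩], hstep w ⟨a, ha⟩⟩
    · rintro ⟨w, rfl⟩
      induction w using List.reverseRecOn with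
      | nil => exact .refl
      | append_singleton w a ih =>
        exact ih.tail (decide_eq_true ⟨a, a.2, (hstep w a).symm⟩)
  have hl : ∀ w, ∀ j < nOf c, (vert x w).getD j false = true ↔
      runN (dec k c) (e D.start) w = j := fun w j hj => by
    rw [hget]
    constructor
    · rintro ⟨i, -, rfl | h, h'⟩
      · rwa [run_uni_left hok _ _ (hlt _)] at h'
      · obtain ⟨q, rfl⟩ := Nat.exists_eq_add_of_le h
        rw [run_uni_right] at h'; omega
    · exact fun h => ⟨_, (hlt _).trans_le (Nat.le_add_right _ _), .inl rfl, by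
        rwa [run_uni_left hok _ _ (hlt _)]⟩
  have hr : ∀ w q', (vert x w).getD (nOf c + q') false = true ↔
      ∃ q < nOf x, runN (dec k x) q w = q' := fun w q' => by
    rw [hget]
    constructor
    · rintro ⟨i, hi, rfl | h, h'⟩
      · rw [run_uni_left hok _ _ (hlt _)] at h'
        have := hok.run_lt w (hlt D.start)
        omega
      · obtain ⟨q, rfl⟩ := Nat.exists_eq_add_of_le h
        rw [run_uni_right] at h'
        exact ⟨q, by simpa [m] using hi, by omega⟩
    · rintro ⟨q, hq, rfl⟩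
      exact ⟨nOf c + q, Nat.add_lt_add_left hq _, .inr (Nat.le_add_right _ _), run_uni_right ..⟩
  simp only [h0, hreach]
  simp only [hx, true_and, decide_true, Bool.true_and, decide_eq_true_eq]
  constructor
  · rintro ⟨w, hw, h1, h2⟩
    refine ⟨_, ⟨w, rfl⟩, ⟨_, hok.run_lt w (hlt D.start), (hl _ _ (hok.run_lt w (hlt D.start))).2 rfl,
      (hF w).1 hw⟩, h1, fun q _ q' _ a b => ?_⟩
    obtain ⟨r, hr1, rfl⟩ := (hr _ _).1 a
    obtain ⟨r', hr2, rfl⟩ := (hr _ _).1 b
    exact h2 _ hr1 _ hr2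
  · rintro ⟨_, ⟨w, rfl⟩, ⟨j, hj, h1, h2⟩, h3, h4⟩
    refine ⟨w, (hF w).2 (((hl _ _ hj).1 h1).symm ▸ h2), h3, fun q hq q' hq' => ?_⟩
    exact h4 _ (hx.2.run_lt w hq) _ (hx.2.run_lt w hq') ((hr _ _).2 ⟨q, hq, rfl⟩)
      ((hr _ _).2 ⟨q', hq', rfl⟩)

end Pool.Agent.Work.MP_dbfdd9_lc
end

-- merged part: Pool.Agent.Work.MP_dbfdd9_lc.MemP
section
/-!
Synchronization inside a component is decidable in polynomial time; the tractable case.
-/

namespace Pool.Agent.Work.MP_dbfdd9_lc

open Pool.Agent.Lib.Cx Relation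

variable {k : ℕ}

theorem exists_sync_of_merge {n : ℕ} {f : ℕ → ℕ → ℕ} (ok : Ok k n f) (h0 : 0 < n)
    (Q : List (Fin k) → Prop) (hn : Q []) (ha : ∀ u w, Q u → Q w → Q (u ++ w))
    (h : ∀ q < n, ∀ q' < n, ∃ w, Q w ∧ runN f q w = runN f q' w) : ∃ w, Q w ∧ SyncN n f w := by
  have key : ∀ j ≤ n, ∃ w, Q w ∧ ∀ q < j, runN f q w = runN f 0 w := by
    intro j
    induction j with
    | zero => exact fun _ => ⟨[], hn, by simp⟩
    | succ j ih =>
      intro hj
      obtain ⟨w, h1, h2⟩ := ih (by omega)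
      obtain ⟨w', h3, h4⟩ := h _ (ok.run_lt w (show j < n from hj)) _ (ok.run_lt w h0)
      refine ⟨w ++ w', ha _ _ h1 h3, fun q hq => ?_⟩
      rw [runN_append, runN_append]
      rcases Nat.lt_succ_iff_lt_or_eq.1 hq with hq | rfl
      · rw [h2 q hq]
      · exact h4
  obtain ⟨w, h1, h2⟩ := key n le_rfl
  exact ⟨w, h1, h0, fun q hq q' hq' => by rw [h2 q hq, h2 q' hq']⟩

variable {B : Type} [Finite B] (β : B → Fin k → B) (b0 : B) (FB : Set B)

/-- Some loop at a useful state of the constraint automaton is synchronizing. -/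
def LoopSync (s : List Bool) : Prop :=
  ∃ p, Useful β b0 FB p ∧ ∃ w : List (Fin k), w.foldl β p = p ∧ SyncN (nOf s) (dec k s) w

open Classical in
theorem ptime_loop {pre : List Bool → List Bool} (hpre : LS pre) {G : List Bool → Bool}
    (hG : LS G) : PTime fun s => decide (Valid k (pre s) ∧ LoopSync β b0 FB (pre s)) || G s := by
  obtain ⟨c, e, he, hlt, -, hok, hrun⟩ := exists_code β
  have := Fintype.ofFinite B
  let UL : List ℕ := ((Finset.univ.filter (Useful β b0 FB)).image e).toList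
  let vx : List Bool → ℕ → ℕ → ℕ → ℕ := fun s p q q' => (p * nOf (pre s) + q) * nOf (pre s) + q'
  let N : List Bool → ℕ := fun s => nOf c * nOf (pre s) * nOf (pre s)
  let E : List Bool → ℕ → ℕ → Bool := fun s i j => decide (∃ a < k, j = vx s
    (dec k c (i / nOf (pre s) / nOf (pre s)) a) (dec k (pre s) (i / nOf (pre s) % nOf (pre s)) a)
    (dec k (pre s) (i % nOf (pre s)) a))
  have hV : LS fun p : List Bool × List Bool => decide (Valid k (pre p.1)) := by fun_prop
  refine (PTime.of_reach (N := N) (E := E) (fin := fun s tab => (decide (Valid k (pre s)) &&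
    decide (0 < nOf (pre s) ∧ ∃ p ∈ UL, ∀ q < nOf (pre s), ∀ q' < nOf (pre s), ∃ r < nOf (pre s),
      tab.getD (vx s p q q' * N s + vx s p r r) false = true)) || G s)
    (by fun_prop) (by fun_prop) (by fun_prop)).congr fun s => ?_
  congr 1
  by_cases hx : Valid k (pre s)
  swap
  · simp [hx]
  simp only [hx, decide_true, Bool.true_and, true_and, decide_eq_decide]
  have ok := hx.2
  have hvx : ∀ {p q q'}, p < nOf c → q < nOf (pre s) → q' < nOf (pre s) → vx s p q q' < N s :=
    fun h1 h2 h3 => pr_lt (pr_lt h1 h2) h3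
  have hreach : ∀ {p q q'}, p < nOf c → q < nOf (pre s) → q' < nOf (pre s) → ∀ j,
      ReflTransGen (fun i j => j < N s ∧ E s i j = true) (vx s p q q') j ↔
      ∃ w : List (Fin k), j = vx s (runN (dec k c) p w) (runN (dec k (pre s)) q w)
        (runN (dec k (pre s)) q' w) := by
    intro p q q' h1 h2 h3 j
    have hE : ∀ (w : List (Fin k)) j, E s (vx s (runN (dec k c) p w) (runN (dec k (pre s)) q w)
        (runN (dec k (pre s)) q' w)) j = true ↔ ∃ a : Fin k, j = vx s
          (runN (dec k c) p (w ++ [a])) (runN (dec k (pre s)) q (w ++ [a]))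
          (runN (dec k (pre s)) q' (w ++ [a])) := fun w j => by
      simp only [E, vx, pr_div (ok.run_lt w h2), pr_mod (ok.run_lt w h2), pr_div (ok.run_lt w h3),
        pr_mod (ok.run_lt w h3), decide_eq_true_eq, runN_append, runN_cons, runN_nil]
      exact ⟨fun ⟨a, ha, h⟩ => ⟨⟨a, ha⟩, h⟩, fun ⟨a, h⟩ => ⟨a, a.2, h⟩⟩
    constructor
    · intro h
      induction h with
      | refl => exact ⟨[], rfl⟩
      | tail _ h ih =>
        obtain ⟨w, rfl⟩ := ih
        obtain ⟨a, rfl⟩ := (hE _ _).1 h.2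
        exact ⟨_, rfl⟩
    · rintro ⟨w, rfl⟩
      induction w using List.reverseRecOn with
      | nil => exact .refl
      | append_singleton w a ih =>
        exact ih.tail ⟨hvx (hok.run_lt _ h1) (ok.run_lt _ h2) (ok.run_lt _ h3), (hE _ _).2 ⟨a, rfl⟩⟩
  have hinj : ∀ {p q q' p1 q1 q1'}, q < nOf (pre s) → q' < nOf (pre s) → q1 < nOf (pre s) →
      q1' < nOf (pre s) → vx s p q q' = vx s p1 q1 q1' → p = p1 ∧ q = q1 ∧ q' = q1' := by
    intro p q q' p1 q1 q1' h1 h2 h3 h4 h
    have a1 := congrArg (· % nOf (pre s)) h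
    have a2 := congrArg (· / nOf (pre s) % nOf (pre s)) h
    have a3 := congrArg (· / nOf (pre s) / nOf (pre s)) h
    simp only [vx, pr_div h1, pr_div h2, pr_div h3, pr_div h4, pr_mod h1, pr_mod h2, pr_mod h3,
      pr_mod h4] at a1 a2 a3
    exact ⟨a3, a2, a1⟩
  simp only [UL, Finset.mem_toList, Finset.mem_image, Finset.mem_filter, Finset.mem_univ, true_and]
  constructor
  · rintro ⟨h0, _, ⟨p, hp, rfl⟩, h⟩
    refine ⟨p, hp, exists_sync_of_merge ok h0 (fun w => w.foldl β p = p) rfl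
      (fun u w h1 h2 => by rw [List.foldl_append, h1, h2]) fun q hq q' hq' => ?_⟩
    obtain ⟨r, hr, h1⟩ := h q hq q' hq'
    rw [getD_relTab _ (hvx (hlt p) hq hq') (hvx (hlt p) hr hr), hreach (hlt p) hq hq'] at h1
    obtain ⟨w, hw⟩ := h1
    obtain ⟨a1, a2, a3⟩ := hinj hr hr (ok.run_lt w hq) (ok.run_lt w hq') hw
    exact ⟨w, (he (a1.trans (hrun p w))).symm, a2.symm.trans a3⟩
  · rintro ⟨p, hp, w, h1, h0, h2⟩
    refine ⟨h0, _, ⟨p, hp, rfl⟩, fun q hq q' hq' => ⟨_, ok.run_lt w hq, ?_⟩⟩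
    rw [getD_relTab _ (hvx (hlt p) hq hq') (hvx (hlt p) (ok.run_lt w hq) (ok.run_lt w hq)),
      hreach (hlt p) hq hq']
    exact ⟨w, by rw [hrun, h1, ← h2 q hq q' hq']⟩

omit [Finite B] in
theorem LoopSync.exists_mem {s : List Bool} (ok : Ok k (nOf s) (dec k s))
    (h : LoopSync β b0 FB s) :
    ∃ w : List (Fin k), w.foldl β b0 ∈ FB ∧ SyncN (nOf s) (dec k s) w := by
  obtain ⟨p, ⟨⟨x, hx⟩, y, hy⟩, w, h1, h2⟩ := h
  exact ⟨x ++ w ++ y, by simpa [hx, h1] using hy, h2.of_inf ok (List.infix_append _ _ _)⟩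

omit [Finite B] in
theorem LoopSync.of_rd {s : List Bool} (ok : Ok k (nOf s) (dec k s)) {p : B} {w : List (Fin k)}
    (hp : Useful β b0 FB p) (h : Rd β p w) (hw : SyncN (nOf s) (dec k s) w) :
    LoopSync β b0 FB s := by
  obtain ⟨t, ht⟩ := h
  exact ⟨p, hp, w ++ t, by rw [List.foldl_append, ht], hw.of_inf ok (List.prefix_append _ _).isInfix⟩

theorem exists_period {n : ℕ} {g : ℕ → ℕ} (hg : ∀ q < n, g q < n) {q : ℕ} (hq : q < n) :
    ∃ l, 0 < l ∧ l ≤ n ∧ g^[l] (g^[n] q) = g^[n] q := by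
  have hlt : ∀ i, g^[i] q < n := fun i => by
    induction i with
    | zero => exact hq
    | succ i ih => rw [Function.iterate_succ_apply']; exact hg _ ih
  have key : ∀ i j, i < j → j ≤ n → g^[i] q = g^[j] q → ∃ l, 0 < l ∧ l ≤ n ∧
      g^[l] (g^[n] q) = g^[n] q := fun i j h1 h2 h3 => ⟨j - i, by omega, by omega, by
    rw [← Function.iterate_add_apply, show j - i + n = (n - i) + j by omega,
      Function.iterate_add_apply, ← h3, ← Function.iterate_add_apply, Nat.sub_add_cancel (by omega)]⟩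
  obtain ⟨i, hi, j, hj, h1, h2⟩ := Finset.exists_ne_map_eq_of_card_lt_of_maps_to
    (s := Finset.range (n + 1)) (t := Finset.range n) (by simp) (f := fun i => g^[i] q)
    fun i _ => by simpa using hlt i
  simp only [Finset.mem_range] at hi hj
  rcases lt_or_gt_of_ne h1 with h | h
  · exact key i j h (by omega) h2
  · exact key j i h (by omega) h2.symm

theorem runN_pw (f : ℕ → ℕ → ℕ) (u : List (Fin k)) (e q : ℕ) :
    runN f q (pw u e) = (fun q => runN f q u)^[e] q := by
  induction e generalizing q with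
  | zero => rfl
  | succ e ih => rw [pw_succ, runN_append, ih, Function.iterate_succ_apply]

theorem SyncN.stabilize {n : ℕ} {f : ℕ → ℕ → ℕ} (ok : Ok k n f) {u mid v : List (Fin k)} {K : ℕ}
    (h : SyncN n f (pw u K ++ mid ++ pw v K)) : SyncN n f (pw u n ++ mid ++ pw v n) := by
  have S1 : ∀ q < n, ∃ q' < n, runN f q (pw u n) = runN f q' (pw u K) := fun q hq => by
    obtain ⟨l, h1, -, h2⟩ := exists_period (g := fun q => runN f q u) (fun _ => ok.run_lt u) hq
    refine ⟨runN f q (pw u (n + (l - 1) * K)), ok.run_lt _ hq, ?_⟩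
    rw [← runN_append, ← pw_add, runN_pw, runN_pw, show n + (l - 1) * K + K = l * K + n by
      obtain ⟨l, rfl⟩ := Nat.exists_eq_add_of_lt h1; simp; ring, Function.iterate_add_apply,
      Function.iterate_mul, Function.iterate_fixed h2]
  have S2 : ∀ a < n, ∀ b < n, runN f a (pw v K) = runN f b (pw v K) →
      runN f a (pw v n) = runN f b (pw v n) := fun a ha b hb hab => by
    obtain ⟨l, h1, -, h2⟩ := exists_period (g := fun q => runN f q v) (fun _ => ok.run_lt v) ha
    obtain ⟨l', h3, -, h4⟩ := exists_period (g := fun q => runN f q v) (fun _ => ok.run_lt v) hb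
    simp only [runN_pw] at hab ⊢
    have e1 := Function.iterate_fixed h2 (l' * K)
    have e2 := Function.iterate_fixed h4 (l * K)
    rw [← Function.iterate_mul, ← Function.iterate_add_apply] at e1 e2
    obtain ⟨r, hr⟩ : ∃ r, l * (l' * K) + n = r + K := ⟨l * (l' * K) + n - K, by
      have : K ≤ l * (l' * K) := (Nat.le_mul_of_pos_left K h3).trans (Nat.le_mul_of_pos_left _ h1)
      omega⟩
    rw [← e1, ← e2, show l' * (l * K) = l * (l' * K) by ring, hr, Function.iterate_add_apply,
      Function.iterate_add_apply, hab]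
  refine ⟨h.1, fun q hq q' hq' => ?_⟩
  obtain ⟨a, ha, h1⟩ := S1 q hq
  obtain ⟨b, hb, h2⟩ := S1 q' hq'
  have := h.2 a ha b hb
  simp only [runN_append] at this ⊢
  rw [h1, h2]
  exact S2 _ (ok.run_lt _ (ok.run_lt _ ha)) _ (ok.run_lt _ (ok.run_lt _ hb)) this

@[fun_prop] theorem ls_pw {α σ : Type} [Obj α] [Obj σ] {u : α → List σ} {e : α → ℕ} (hu : LS u)
    (he : LS e) : LS fun x => pw (u x) (e x) := by
  unfold pw; fun_prop

theorem cs_mem_P {L : Language (Fin k)} (hL : ∀ w, w ∈ L ↔ w.foldl β b0 ∈ FB) (c : ℕ)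
    (h : ∀ w ∈ L, (∃ p, Useful β b0 FB p ∧ Rd β p w) ∨ ∃ u mid v : List (Fin k),
      u.length ≤ c ∧ mid.length ≤ c ∧ v.length ≤ c ∧
      (∀ N, ∃ x y : List (Fin k), x ++ (pw u N ++ mid ++ pw v N) ++ y ∈ L) ∧
      ∃ K, w <:+: pw u K ++ mid ++ pw v K) : ConstrSync L ∈ N68a2faeb.P := by
  classical
  have hfin : {t : List (Fin k) × List (Fin k) × List (Fin k) | (t.1.length ≤ c ∧
      t.2.1.length ≤ c ∧ t.2.2.length ≤ c) ∧
      ∀ N, ∃ x y : List (Fin k), x ++ (pw t.1 N ++ t.2.1 ++ pw t.2.2 N) ++ y ∈ L}.Finite :=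
    ((List.finite_length_le (Fin k) c).prod ((List.finite_length_le (Fin k) c).prod
      (List.finite_length_le (Fin k) c))).subset fun _ h => h.1
  let TL := hfin.toFinset.toList
  have hG : LS fun s => decide (Valid k (unTri s)) && TL.any fun t => decide (SyncN (nOf (unTri s))
      (dec k (unTri s)) (pw t.1 (nOf (unTri s)) ++ t.2.1 ++ pw t.2.2 (nOf (unTri s)))) := by
    fun_prop
  refine PTime.mem_P ((ptime_loop β b0 FB (pre := unTri) (by fun_prop) hG).congr fun s => ?_)
  rw [Bool.eq_iff_iff, cs_iff]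
  generalize unTri s = x
  simp only [Bool.or_eq_true, decide_eq_true_eq, Bool.and_eq_true, List.any_eq_true, TL,
    Finset.mem_toList, Set.Finite.mem_toFinset, Set.mem_ofPred_eq, ← and_or_left]
  refine and_congr_right fun hx => ⟨?_, ?_⟩
  · rintro (h | ⟨t, ⟨-, h1⟩, h2⟩)
    · obtain ⟨w, h1, h2⟩ := h.exists_mem β b0 FB hx.2
      exact ⟨w, (hL w).2 h1, h2⟩
    · obtain ⟨x', y, h3⟩ := h1 (nOf x)
      exact ⟨_, h3, h2.of_inf hx.2 (List.infix_append _ _ _)⟩
  · rintro ⟨w, h1, h2⟩
    rcases h w h1 with ⟨p, h3, h4⟩ | ⟨u, mid, v, a1, a2, a3, a4, K, a5⟩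
    · exact .inl (LoopSync.of_rd β b0 FB hx.2 h3 h4 h2)
    · exact .inr ⟨(u, mid, v), ⟨⟨a1, a2, a3⟩, a4⟩, (h2.of_inf hx.2 a5).stabilize hx.2⟩

end Pool.Agent.Work.MP_dbfdd9_lc
end

-- merged part: Pool.Agent.Work.MP_dbfdd9_lc.MemNP
section
/-!
The sparse case is in `NP`: straight-line programs as certificates.
-/

namespace Pool.Agent.Work.MP_dbfdd9_lc

open Pool.Agent.Lib.Cx Relation

variable {k : ℕ}

/-- Straight-line programs (newest entry first). -/
def Slp {σ : Type} : List (List σ) → Prop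
  | [] => True
  | w :: l => Slp l ∧ (w = [] ∨ (∃ a, w = [a]) ∨ ∃ u ∈ l, ∃ u' ∈ l, w = u ++ u')

/-- `w` can be added to any program at cost `n`. -/
def Gen {σ : Type} (n : ℕ) (w : List σ) : Prop :=
  ∀ l, Slp l → ∃ l', Slp (l' ++ l) ∧ w ∈ l' ++ l ∧ l'.length ≤ n

namespace Gen

variable {σ : Type}

theorem mono {n m : ℕ} {w : List σ} (h : Gen n w) (e : n ≤ m) : Gen m w := fun l hl =>
  let ⟨l', a, b, c⟩ := h l hl; ⟨l', a, b, c.trans e⟩

theorem nil : Gen 1 ([] : List σ) := fun l hl => ⟨[[]], ⟨hl, .inl rfl⟩, by simp, le_rfl⟩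

theorem append {n m : ℕ} {u w : List σ} (hu : Gen n u) (hw : Gen m w) :
    Gen (n + m + 1) (u ++ w) := fun l hl => by
  obtain ⟨l1, a1, a2, a3⟩ := hu l hl
  obtain ⟨l2, b1, b2, b3⟩ := hw _ a1
  refine ⟨(u ++ w) :: (l2 ++ l1), ?_, by simp, by simp; omega⟩
  rw [List.cons_append, List.append_assoc]
  exact ⟨b1, .inr (.inr ⟨u, List.mem_append_right _ a2, w, b2, rfl⟩)⟩

theorem word (w : List σ) : Gen (2 * w.length + 1) w := by
  induction w with
  | nil => exact nil
  | cons a w ih =>
    have : Gen 1 [a] := fun l hl => ⟨[[a]], ⟨hl, .inr (.inl ⟨a, rfl⟩)⟩, by simp, le_rfl⟩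
    exact (this.append ih).mono (by simp; omega)

theorem pow {n : ℕ} {v : List σ} (hv : Gen n v) (j : ℕ) {e : ℕ} (he : e < 2 ^ j) :
    Gen (n + 2 * j + 1) (pw v e) := by
  have key : ∀ j e, e < 2 ^ j → ∀ l, Slp l → v ∈ l →
      ∃ l', Slp (l' ++ l) ∧ pw v e ∈ l' ++ l ∧ l'.length ≤ 2 * j + 1 := by
    intro j
    induction j with
    | zero =>
      intro e he l hl _
      obtain rfl : e = 0 := by simpa using he
      exact nil l hl
    | succ j ih =>
      intro e he l hl hv
      obtain ⟨l1, a1, a2, a3⟩ := ih (e / 2) (by rw [pow_succ] at he; omega) l hl hv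
      have b1 : Slp (pw v (e / 2 + e / 2) :: (l1 ++ l)) :=
        ⟨a1, .inr (.inr ⟨_, a2, _, a2, pw_add _ _ _⟩)⟩
      rcases Nat.mod_two_eq_zero_or_one e with h | h
      · exact ⟨pw v (e / 2 + e / 2) :: l1, b1, by
          rw [show e / 2 + e / 2 = e by omega]; simp, by simp; omega⟩
      · exact ⟨pw v e :: pw v (e / 2 + e / 2) :: l1, ⟨b1, .inr (.inr ⟨_, List.mem_cons_self, v,
          by simp [hv], by rw [← pw_succ']; congr 1; omega⟩)⟩, by simp, by simp; omega⟩
  intro l hl
  obtain ⟨l1, a1, a2, a3⟩ := hv l hl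
  obtain ⟨l2, b1, b2, b3⟩ := key j e he _ a1 a2
  exact ⟨l2 ++ l1, by rwa [List.append_assoc], by rwa [List.append_assoc], by simp; omega⟩

end Gen

theorem Slp.index {σ : Type} : ∀ {l : List (List σ)}, Slp l → ∀ i < l.length,
    l.getD i [] = [] ∨ (∃ a, l.getD i [] = [a]) ∨ ∃ i1 < l.length, ∃ i2 < l.length,
      i < i1 ∧ i < i2 ∧ l.getD i [] = l.getD i1 [] ++ l.getD i2 []
  | [], _, _, hi => by simp at hi
  | w :: l, h, 0, _ => by
    refine h.2.imp_right (Or.imp_right ?_)
    rintro ⟨u, hu, u', hu', rfl⟩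
    obtain ⟨i, hi, rfl⟩ := List.getElem_of_mem hu
    obtain ⟨j, hj, rfl⟩ := List.getElem_of_mem hu'
    exact ⟨i + 1, by simpa using hi, j + 1, by simpa using hj, by omega, by omega,
      by simp [hi, hj]⟩
  | w :: l, h, i + 1, hi => by
    refine (h.1.index i (by simpa using hi)).imp_right (Or.imp_right ?_)
    rintro ⟨i1, h1, i2, h2, h3, h4, h5⟩
    exact ⟨i1 + 1, by simpa using h1, i2 + 1, by simpa using h2, by omega, by omega, h5⟩

theorem exists_small_exp {m : ℕ} {f : ℕ → ℕ → ℕ} (ok : Ok k m f) (v : List (Fin k)) (e : ℕ) :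
    ∃ e' < 2 ^ (m * m + 1), ∀ j < m, runN f j (pw v e') = runN f j (pw v e) := by
  have h1 : m.factorial ≤ 2 ^ (m * m) :=
    (Nat.factorial_le_pow m).trans (by rw [pow_mul]; exact Nat.pow_le_pow_left Nat.lt_two_pow_self.le m)
  have h2 : m ≤ 2 ^ (m * m) := (Nat.self_le_factorial m).trans h1
  by_cases he : e < m
  · exact ⟨e, by rw [pow_succ]; omega, fun _ _ => rfl⟩
  · have := Nat.mod_lt (e - m) m.factorial_pos
    refine ⟨(e - m) % m.factorial + m, by rw [pow_succ]; omega, fun j hj => ?_⟩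
    obtain ⟨l, a1, a2, a3⟩ := exists_period (g := fun q => runN f q v) (fun _ => ok.run_lt v) hj
    obtain ⟨d, hd⟩ := Nat.dvd_factorial a1 a2
    have e1 : e = (e - m) % m.factorial + (l * (d * ((e - m) / m.factorial)) + m) := by
      have := Nat.mod_add_div (e - m) m.factorial
      rw [← Nat.mul_assoc, ← hd]; omega
    rw [runN_pw, runN_pw]
    conv_rhs => rw [e1]
    simp only [Function.iterate_add_apply]
    rw [Function.iterate_mul, Function.iterate_fixed a3]

theorem exists_slp {m : ℕ} {f : ℕ → ℕ → ℕ} (ok : Ok k m f) (c : ℕ)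
    (bl : List (List (Fin k) × ℕ × List (Fin k)))
    (h : ∀ b ∈ bl, b.1.length ≤ c ∧ b.2.2.length ≤ c) :
    ∃ w' : List (Fin k), Gen (bl.length * (4 * c + 2 * (m * m) + 7) + 1) w' ∧
      ∀ j < m, runN f j w' = runN f j (bl.flatMap fun b => pw b.1 b.2.1 ++ b.2.2) := by
  induction bl with
  | nil => exact ⟨[], by simpa using Gen.nil, fun _ _ => rfl⟩
  | cons b bl ih =>
    obtain ⟨w', h1, h2⟩ := ih fun b hb => h b (List.mem_cons_of_mem _ hb)
    obtain ⟨e', h3, h4⟩ := exists_small_exp ok b.1 b.2.1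
    have := h b List.mem_cons_self
    refine ⟨pw b.1 e' ++ b.2.2 ++ w', (((((Gen.word b.1).pow _ h3).append (Gen.word b.2.2)).append
      h1)).mono (by rw [List.length_cons, Nat.add_one_mul bl.length]; omega), fun j hj => ?_⟩
    simp only [List.flatMap_cons, runN_append]
    rw [h4 j hj, h2 _ (ok.run_lt _ (ok.run_lt _ hj))]

variable {B : Type} [Finite B] (β : B → Fin k → B) (b0 : B) (FB : Set B)

theorem cs_mem_NP {L : Language (Fin k)} (hL : ∀ w, w ∈ L ↔ w.foldl β b0 ∈ FB) (C : ℕ)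
    (h : ∀ w ∈ L, (∃ p, Useful β b0 FB p ∧ Rd β p w) ∨
      ∃ bl : List (List (Fin k) × ℕ × List (Fin k)), bl.length ≤ C ∧
        (∀ b ∈ bl, b.1.length ≤ C ∧ b.2.2.length ≤ C) ∧
        w = bl.flatMap fun b => pw b.1 b.2.1 ++ b.2.2) : ConstrSync L ∈ N68a2faeb.NP := by
  classical
  obtain ⟨c, e, he, hlt, -, hok, hrun⟩ := exists_code β
  have := Fintype.ofFinite B
  let FL : List ℕ := ((Finset.univ.filter (· ∈ FB)).image e).toList
  have hF : ∀ w, w ∈ L ↔ runN (dec k c) (e b0) w ∈ FL := fun w => by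
    simp only [hL, hrun, FL, Finset.mem_toList, Finset.mem_image, Finset.mem_filter,
      Finset.mem_univ, true_and, he.eq_iff, exists_eq_right]
  let m : List Bool → ℕ := fun x => nOf c + nOf x
  let T : List Bool × List Bool → ℕ → ℕ → ℕ := fun p i j => (blk p.2 (i * m p.1 + j)).length
  let G : List Bool × List Bool → Bool := fun p => decide (Valid k p.1) &&
    decide (∃ r ≤ p.2.length, (∀ i < r, (∀ j < m p.1, T p i j = j) ∨
      (∃ a < k, ∀ j < m p.1, T p i j = uni k c p.1 j a) ∨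
      ∃ i1 < r, ∃ i2 < r, i < i1 ∧ i < i2 ∧ ∀ j < m p.1, T p i j = T p i2 (T p i1 j)) ∧
      ∃ i < r, T p i (e b0) ∈ FL ∧ 0 < nOf p.1 ∧
        ∀ q < nOf p.1, ∀ q' < nOf p.1, T p i (nOf c + q) = T p i (nOf c + q'))
  have hG : LS G := by
    have hV : LS fun p : List Bool × List Bool => decide (Valid k p.1) := by fun_prop
    fun_prop
  have hB : LS fun s : Str => (C * (4 * C + 2 * (m s.val * m s.val) + 7) + 1) * m s.val *
    (2 * m s.val + 1) := by fun_prop
  obtain ⟨pB, hpB⟩ := hB.bound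
  refine PTime.mem_NP pB (fun p => decide (Valid k p.1 ∧ LoopSync β b0 FB p.1) || G p)
    (ptime_loop β b0 FB (pre := fun s => (unPair s).1) (by fun_prop) (by fun_prop)) fun x => ?_
  rw [cs_iff]
  by_cases hx : Valid k x
  swap
  · simp [G, hx]
  have ok := ok_uni hok hx.2
  have hb0 : e b0 < m x := (hlt b0).trans_le (Nat.le_add_right _ _)
  simp only [G, hx, true_and, decide_true, Bool.true_and, Bool.or_eq_true, decide_eq_true_eq]
  constructor
  · rintro ⟨w, h1, h2⟩
    rcases h w h1 with ⟨p, h3, h4⟩ | ⟨bl, a1, a2, rfl⟩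
    · exact ⟨[], Nat.zero_le _, .inl (LoopSync.of_rd β b0 FB hx.2 h3 h4 h2)⟩
    obtain ⟨w', b1, b2⟩ := exists_slp ok C bl a2
    obtain ⟨l, c1, c2, c3⟩ := b1 [] trivial
    rw [List.append_nil] at c1 c2
    let nums : List ℕ := (List.range l.length).flatMap fun i => (List.range (m x)).map fun j =>
      runN (uni k c x) j (l.getD i [])
    have hnl : nums.length = l.length * m x := length_matrix _ _ _
    have hT : ∀ i < l.length, ∀ j < m x, T (x, (nums.map un).flatMap dl) i j =
        runN (uni k c x) j (l.getD i []) := fun i hi j hj => by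
      have h5 : i * m x + j < nums.length := hnl ▸ pr_lt hi hj
      have := blk_flatMap (nums.map un) [] (i * m x + j) (by simpa using h5)
      rw [List.append_nil] at this
      simp only [T, this, List.getElem_map, length_un]
      rw [← List.getD_eq_getElem _ 0 h5]
      exact getD_matrix _ _ _ _ hi hj
    have hlen : ∀ ns : List ℕ, (∀ n ∈ ns, n ≤ m x) → ns.length ≤ ((ns.map un).flatMap dl).length ∧
        ((ns.map un).flatMap dl).length ≤ ns.length * (2 * m x + 1) := by
      intro ns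
      induction ns with
      | nil => simp
      | cons n ns ih =>
        intro h
        have := ih fun n hn => h n (List.mem_cons_of_mem _ hn)
        have := h n List.mem_cons_self
        simp only [List.map_cons, List.flatMap_cons, List.length_append, length_dl, length_un,
          List.length_cons, Nat.add_one_mul ns.length]
        omega
    obtain ⟨d1, d2⟩ := hlen nums fun n hn => by
      simp only [nums, List.mem_flatMap, List.mem_map, List.mem_range] at hn
      obtain ⟨i, -, j, hj, rfl⟩ := hn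
      exact (ok.run_lt _ hj).le
    refine ⟨(nums.map un).flatMap dl, d2.trans ?_, .inr ⟨l.length, le_trans ?_ d1, fun i hi => ?_, ?_⟩⟩
    · have := hpB (Str.mk x)
      simp only [Str.val_mk, sz_nat, sz_str] at this
      refine le_trans ?_ this
      rw [hnl]
      exact Nat.mul_le_mul_right _ (Nat.mul_le_mul_right _ (c3.trans (Nat.succ_le_succ
        (Nat.mul_le_mul_right _ a1))))
    · rw [hnl]; exact Nat.le_mul_of_pos_right _ ((Nat.zero_le _).trans_lt hb0)
    · rcases c1.index i hi with h5 | ⟨a, h5⟩ | ⟨i1, h5, i2, h6, h7, h8, h9⟩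
      · exact .inl fun j hj => by rw [hT i hi j hj, h5]; rfl
      · exact .inr (.inl ⟨a, a.2, fun j hj => by rw [hT i hi j hj, h5]; rfl⟩)
      · exact .inr (.inr ⟨i1, h5, i2, h6, h7, h8, fun j hj => by
          rw [hT i hi j hj, hT i1 h5 j hj, hT i2 h6 _ (ok.run_lt _ hj), h9, runN_append]⟩)
    · obtain ⟨i, hi, rfl⟩ := List.getElem_of_mem c2
      rw [← List.getD_eq_getElem _ [] hi] at b2
      refine ⟨i, hi, ?_, h2.1, fun q hq q' hq' => ?_⟩
      · rw [hT i hi _ hb0, b2 _ hb0, run_uni_left hok _ _ (hlt b0)]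
        exact (hF _).1 h1
      · rw [hT i hi _ (Nat.add_lt_add_left hq _), hT i hi _ (Nat.add_lt_add_left hq' _),
          b2 _ (Nat.add_lt_add_left hq _), b2 _ (Nat.add_lt_add_left hq' _), run_uni_right,
          run_uni_right, h2.2 q hq q' hq']
  · rintro ⟨cert, -, h1 | ⟨r, -, h1, i, hi, h2, h3, h4⟩⟩
    · obtain ⟨w, h2, h3⟩ := h1.exists_mem β b0 FB hx.2
      exact ⟨w, (hL w).2 h2, h3⟩
    have sound : ∀ d i, i < r → r ≤ i + d → ∃ w : List (Fin k), ∀ j < m x,
        T (x, cert) i j = runN (uni k c x) j w := by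
      intro d
      induction d with
      | zero => intro i h1 h2; omega
      | succ d ih =>
        intro i hi hd
        rcases h1 i hi with h5 | ⟨a, ha, h5⟩ | ⟨i1, h5, i2, h6, h7, h8, h9⟩
        · exact ⟨[], h5⟩
        · exact ⟨[⟨a, ha⟩], h5⟩
        · obtain ⟨w1, e1⟩ := ih i1 h5 (by omega)
          obtain ⟨w2, e2⟩ := ih i2 h6 (by omega)
          exact ⟨w1 ++ w2, fun j hj => by
            rw [h9 j hj, e1 j hj, e2 _ (ok.run_lt _ hj), runN_append]⟩
    obtain ⟨w, hw⟩ := sound r i hi (by omega)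
    refine ⟨w, (hF w).2 ?_, h3, fun q hq q' hq' => ?_⟩
    · rwa [hw _ hb0, run_uni_left hok _ _ (hlt b0)] at h2
    · have := h4 q hq q' hq'
      rw [hw _ (Nat.add_lt_add_left hq _), hw _ (Nat.add_lt_add_left hq' _), run_uni_right,
        run_uni_right] at this
      omega

end Pool.Agent.Work.MP_dbfdd9_lc
end
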