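import Pool.Agent.Work.MP_dbfdd9_lc.MemNP
import Pool.Agent.Lib.Cx.DfaPspace

/-!
The trichotomy.
-/

namespace Pool.Agent.Work.MP_dbfdd9_lc

open Pool.Agent.Lib.Cx

theorem trichotomy {k : ℕ} (L : Language (Fin k)) (hreg : L.IsRegular) :
    ConstrSync L ∈ N68a2faeb.P ∨ LogComplete N68a2faeb.NP (ConstrSync L) ∨
      LogComplete PSPACE (ConstrSync L) := by
  have hps := cs_mem_PSPACE hreg
  obtain ⟨B, _, D, hD⟩ := hreg
  have hL : ∀ w, w ∈ L ↔ w.foldl D.step D.start ∈ D.accept := fun w => by rw [← hD]; rfl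
  generalize D.step = β, D.start = b0, D.accept = FB at hL
  have hU : ∀ p q, Useful β b0 FB p → Sim β p q → Useful β b0 FB q := fun _ _ => Useful.of_sim
  let gs : Set B → Fin k → Set B := fun S a => img β (Useful β b0 FB) S [a]
  have hgs : ∀ (w : List (Fin k)) a S, (a :: w).foldl gs S = img β (Useful β b0 FB) S (a :: w) := by
    intro w
    induction w with
    | nil => exact fun _ _ => rfl
    | cons b w ih => intro a S; rw [List.foldl_cons, ih, ← img_append hU]; rfl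
  let δ : B × Set B → Fin k → B × Set B := fun q a => (β q.1 a, gs q.2 a)
  have hδ : ∀ (w : List (Fin k)) q, w.foldl δ q = (w.foldl β q.1, w.foldl gs q.2) := by
    intro w
    induction w with
    | nil => exact fun _ => rfl
    | cons a w ih => exact fun q => ih _
  let p0 : B × Set B := (b0, Set.univ)
  let F : Set (B × Set B) := {q | q.1 ∈ FB ∧ q.2 = ∅}
  have hsplit : ∀ w ∈ L, (∃ p, Useful β b0 FB p ∧ Rd β p w) ∨ w.foldl δ p0 ∈ F := fun w hw => by
    rcases w with _ | ⟨a, w⟩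
    · exact .inl ⟨b0, ⟨.refl _, [], (hL _).1 hw⟩, .nil _⟩
    · rw [hδ, hgs]
      rcases (img β (Useful β b0 FB) Set.univ (a :: w)).eq_empty_or_nonempty with h | ⟨_, p, -, h⟩
      · exact .inr ⟨(hL _).1 hw, h⟩
      · exact .inl ⟨p, h.1, h.2.1⟩
  have hF : ∀ w : List (Fin k), w.foldl δ p0 ∈ F ↔
      w ∈ L ∧ ∀ γ γ', w.foldl gs γ = w.foldl gs γ' := fun w => by
    rw [hδ, hL]
    refine and_congr_right fun _ => ⟨fun h => ?_, fun h => ?_⟩
    · have : ∀ γ, w.foldl gs γ = ∅ := fun γ => by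
        rcases w with _ | ⟨a, w⟩
        · exact Set.subset_eq_empty (Set.subset_univ γ) h
        · exact Set.subset_eq_empty (by rw [hgs, hgs]; exact img_mono (Set.subset_univ _) _) h
      exact fun γ γ' => by rw [this, this]
    · change w.foldl gs Set.univ = ∅
      rw [h _ ∅]
      rcases w with _ | ⟨a, w⟩
      · rfl
      · rw [hgs]; simp [img]
  have hK : ∀ p, Useful δ p0 F p → ∀ w : List (Fin k), w.foldl δ p0 ∈ F → ¬CC δ p w := by
    rintro p hp w hw ⟨q, h1, t, h2⟩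
    obtain ⟨⟨x, hx⟩, y, hy⟩ := hp.of_sim h1
    have h3 : Useful β b0 FB q.1 := ⟨⟨x, by rw [← hx, hδ]⟩, y, by rw [hδ] at hy; exact hy.1⟩
    have h4 : Rd β q.1 w := ⟨t, by rw [hδ, hδ] at h2; exact congrArg Prod.fst h2⟩
    rw [hδ] at hw
    have h5 : w.foldl β q.1 ∈ w.foldl gs Set.univ := by
      rcases w with _ | ⟨a, w⟩
      · trivial
      · rw [hgs]; exact ⟨q.1, trivial, h3, h4, rfl⟩
    rw [show w.foldl gs Set.univ = ∅ from hw.2] at h5
    exact h5
  have hard : ∀ {g : ℕ}, HasTracker g δ p0 F → ∀ (A : List Bool → Bool) (F0 : Fam g),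
      (∀ x, A x = true ↔ ∃ w, ∀ i < F0.n x, F0.Acc x i w) → LogReducible A (ConstrSync L) := by
    rintro g ⟨T, _, step, out, K, τ0, h1, h2⟩ A F0 hA
    refine logRed_of_tracker ∅ step out gs K τ0 (fun w a b => h1 w ((hF w).2 ⟨a, b⟩))
      (fun v => ?_) F0 hA
    obtain ⟨w, a, b⟩ := h2 v
    exact ⟨w, ((hF w).1 a).1, ((hF w).1 a).2, b⟩
  by_cases hb : NonBr δ p0 F
  swap
  · refine .inr (.inr ⟨hps, fun A hA => ?_⟩)
    obtain ⟨g, F0, h⟩ := exists_fam_of_PSPACE hA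
    exact hard (hasTracker_of_not_nonBr hK hb g) A F0 h
  by_cases hC : ∀ p, Useful δ p0 F p → ∀ u : List (Fin k), u ≠ [] → u.foldl δ p = p →
      (∀ x s : List (Fin k), x.foldl δ p0 = p → s.foldl δ p = p → CC δ p (x ++ s)) ∨
      (∀ s y : List (Fin k), s.foldl δ p = p → y.foldl δ p ∈ F → CC δ p (s ++ y))
  · obtain ⟨c, hc⟩ := exists_templates hb hC
    refine .inl (cs_mem_P β b0 FB hL c fun w hw => (hsplit w hw).imp_right fun h => ?_)
    obtain ⟨u, mid, v, h1, h2, h3, h4, h5⟩ := hc w h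
    exact ⟨u, mid, v, h1, h2, h3, fun N => let ⟨x, y, h⟩ := h4 N; ⟨x, y, ((hF _).1 h).1⟩, h5⟩
  · obtain ⟨c, hc⟩ := exists_blocks hb
    refine .inr (.inl ⟨cs_mem_NP β b0 FB hL c fun w hw => (hsplit w hw).imp_right (hc w),
      fun A hA => ?_⟩)
    push Not at hC
    obtain ⟨p, hp, u, hu0, hu, ⟨x, s1, hx, hs1, hl⟩, s2, y, hs2, hy, hr⟩ := hC
    obtain ⟨F0, h⟩ := exists_fam_of_NP hA
    exact hard (hasTracker_of_breaks hb hp hu hu0 hx hs1 hs2 hy hl hr) A F0 h

end Pool.Agent.Work.MP_dbfdd9_lc
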